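import Pool.Agent.V8H21.SQ.Dens3

set_option autoImplicit false

/-! Sums of a dense set of primes and a dense set of squares: densities, and the optimality. -/

namespace Pool.Agent.V8H21.SQ

open Finset Filter Topology
open Pool.Agent.H373R2.T7 (Vz pz Vz_pos mem_pz Vz_le_one ev_L' ev_log')

/-- all `ε` -/
theorem dens_all {ε α : ℝ} (hε : 0 < ε) (hα : 0 < α) : ∃ δ₀ : ℝ, 0 < δ₀ ∧ δ₀ < Real.exp (-1) ∧ ∀ δ : ℝ, 0 < δ → δ ≤ δ₀ →
    ∀ K : ℕ, ∃ N0 : ℕ, ∀ N : ℕ, N0 ≤ N → ∀ Y : ℕ, Y ^ 2 ≤ N → N ≤ K * Y ^ 2 → ∀ A M : Finset ℕ,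
      (∀ a ∈ A, a.Prime ∧ a ≤ N) → M ⊆ Icc 1 Y → α * (N / Real.log N) ≤ (A.card : ℝ) → δ * Y ≤ (M.card : ℝ) →
      (1 - ε) * (α * N) / (Gm * Real.log (Real.log (1 / δ))) ≤ ((sums A M).card : ℝ) := by
  have hm : 0 < min ε (1 / 2) := lt_min hε (by norm_num)
  obtain ⟨δ₀, h1, h2, h3⟩ := dens_half hm (min_le_right _ _) hα
  refine ⟨δ₀, h1, h2, fun δ hδ hδ0 K => ?_⟩
  obtain ⟨N0, h4⟩ := h3 δ hδ hδ0 K
  refine ⟨N0, fun N hN Y hY1 hY2 A M hA hM hAc hMc => le_trans ?_ (h4 N hN Y hY1 hY2 A M hA hM hAc hMc)⟩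
  have hG := Gm_pos
  have hT : 1 < Real.log (1 / δ) := by
    rw [one_div, Real.log_inv]
    have := Real.log_lt_log hδ (lt_of_le_of_lt hδ0 h2)
    rw [Real.log_exp] at this
    linarith
  have hl : 0 < Real.log (Real.log (1 / δ)) := Real.log_pos hT
  apply div_le_div_of_nonneg_right _ (by positivity)
  apply mul_le_mul_of_nonneg_right _ (by positivity)
  have := min_le_left ε (1 / 2)
  linarith

open Classical in
/-- the sums up to `X` of the primes in `A` and the squares of the positive elements of `M` -/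
noncomputable def cnt (A M : Set ℕ) (X : ℕ) : ℕ :=
  ((Icc 1 X).filter (fun n => ∃ p m : ℕ, p.Prime ∧ p ∈ A ∧ m ∈ M ∧ 1 ≤ m ∧ n = p + m ^ 2)).card

open Classical in
/-- the primes of `A` up to `N` -/
noncomputable def cP (A : Set ℕ) (N : ℕ) : ℕ := ((Icc 1 N).filter (fun p => p.Prime ∧ p ∈ A)).card

open Classical in
/-- the elements of `M` up to `Y` -/
noncomputable def cM (M : Set ℕ) (Y : ℕ) : ℕ := ((Icc 1 Y).filter (fun m => m ∈ M)).card

/-- lower densities -/
theorem dens_inf {ε α : ℝ} (hε : 0 < ε) (hα : 0 < α) : ∃ δ₀ : ℝ, 0 < δ₀ ∧ δ₀ < Real.exp (-1) ∧ ∀ δ : ℝ, 0 < δ → δ ≤ δ₀ →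
    ∀ A M : Set ℕ, (∀ᶠ N : ℕ in atTop, α * (N / Real.log N) ≤ (cP A N : ℝ)) →
      (∀ᶠ Y : ℕ in atTop, δ * Y ≤ (cM M Y : ℝ)) →
      ∀ᶠ X : ℕ in atTop, (1 - ε) * α / (Gm * Real.log (Real.log (1 / δ))) * X ≤ (cnt A M X : ℝ) := by
  classical
  have hm : 0 < min ε 1 / 4 := by
    have : 0 < min ε 1 := lt_min hε one_pos
    positivity
  obtain ⟨e, he⟩ : ∃ e, e = min ε 1 / 4 := ⟨_, rfl⟩
  rw [← he] at hm
  have heε : 4 * e ≤ ε := by rw [he]; have := min_le_left ε 1; linarith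
  have he1 : e ≤ 1 / 4 := by rw [he]; have := min_le_right ε 1; linarith
  obtain ⟨δ₀, h1, h2, h3⟩ := dens_all hm hα
  refine ⟨δ₀, h1, h2, fun δ hδ hδ0 A M hA hM => ?_⟩
  obtain ⟨k, hk⟩ := exists_nat_gt (1 / e + 2)
  have hk0 : (0 : ℝ) < k := by
    have : 0 < 1 / e := by positivity
    linarith
  have hk2 : 2 ≤ k := by
    have : 0 < 1 / e := by positivity
    have : (2 : ℝ) ≤ k := by linarith
    exact_mod_cast this
  obtain ⟨N0, h4⟩ := h3 δ hδ hδ0 (8 * k)
  obtain ⟨NA, hNA⟩ := eventually_atTop.1 hA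
  obtain ⟨NM, hNM⟩ := eventually_atTop.1 hM
  rw [eventually_atTop]
  refine ⟨2 * (N0 + NA) + 2 * k * ((NM + 1) ^ 2 + 4) + 4, fun X hX => ?_⟩
  set Y := Nat.sqrt (X / k) with hY
  set N := X - X / k with hN
  have hXk2 : X / k ≤ X / 2 := Nat.div_le_div_left hk2 (by norm_num)
  have hN2 : X / 2 ≤ N := by omega
  have hXk : (NM + 1) ^ 2 + 4 ≤ X / k := by
    rw [Nat.le_div_iff_mul_le (by omega)]
    nlinarith
  have hY1 : Y ^ 2 ≤ X / k := by
    rw [hY, pow_two]
    exact Nat.sqrt_le _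
  have hYlt : X / k < (Y + 1) ^ 2 := by
    rw [hY, pow_two]
    exact Nat.lt_succ_sqrt _
  have hYNM : NM ≤ Y := by
    by_contra hcon
    push Not at hcon
    have : (Y + 1) ^ 2 ≤ (NM + 1) ^ 2 := Nat.pow_le_pow_left (by omega) 2
    omega
  have hY1' : 1 ≤ Y := by
    by_contra hcon
    have : Y = 0 := by omega
    rw [this] at hYlt
    omega
  have hXlt : X < k * (Y + 1) ^ 2 := by
    rw [Nat.div_lt_iff_lt_mul (by omega)] at hYlt
    linarith
  have hXY : X ≤ 8 * k * Y ^ 2 := by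
    have h5 : (Y + 1) ^ 2 ≤ 4 * Y ^ 2 := by nlinarith
    have h6 : k * (Y + 1) ^ 2 ≤ k * (4 * Y ^ 2) := Nat.mul_le_mul_left k h5
    nlinarith
  have hYN : Y ^ 2 ≤ N := by omega
  have key := h4 N (by omega) Y hYN (le_trans (Nat.sub_le _ _) hXY) ((Icc 1 N).filter (fun p => p.Prime ∧ p ∈ A))
    ((Icc 1 Y).filter (fun m => m ∈ M)) (fun a ha => by
      rw [mem_filter, mem_Icc] at ha
      exact ⟨ha.2.1, ha.1.2⟩) (filter_subset _ _) (hNA N (by omega)) (hNM Y hYNM)
  have hsub : ((sums ((Icc 1 N).filter (fun p => p.Prime ∧ p ∈ A)) ((Icc 1 Y).filter (fun m => m ∈ M))).card : ℝ) ≤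
      (cnt A M X : ℝ) := by
    unfold cnt
    apply Nat.cast_le.2
    apply card_le_card
    intro n hn
    rw [mem_sums] at hn
    obtain ⟨a, ha, m, hm, rfl⟩ := hn
    rw [mem_filter, mem_Icc] at ha hm
    rw [mem_filter, mem_Icc]
    have h5 : m ^ 2 ≤ Y ^ 2 := Nat.pow_le_pow_left hm.1.2 2
    refine ⟨⟨by omega, by omega⟩, a, m, ha.2.1, ha.2.2, hm.2, hm.1.1, rfl⟩
  refine le_trans ?_ (key.trans hsub)
  have hG := Gm_pos
  have hT : 1 < Real.log (1 / δ) := by
    rw [one_div, Real.log_inv]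
    have := Real.log_lt_log hδ (lt_of_le_of_lt hδ0 h2)
    rw [Real.log_exp] at this
    linarith
  have hl : 0 < Real.log (Real.log (1 / δ)) := Real.log_pos hT
  have hNr : (1 - e) * X ≤ N := by
    have h5 : ((X / k : ℕ) : ℝ) ≤ X / k := Nat.cast_div_le
    have h6 : (N : ℝ) = X - ((X / k : ℕ) : ℝ) := by
      rw [hN, Nat.cast_sub (Nat.div_le_self _ _)]
    have h7 : (X : ℝ) / k ≤ e * X := by
      rw [div_le_iff₀ hk0]
      have h8 : 1 ≤ e * k := by
        have : 1 / e ≤ k := by linarith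
        rw [div_le_iff₀ hm] at this
        linarith
      have h9 : (0 : ℝ) ≤ X := Nat.cast_nonneg _
      nlinarith
    rw [h6]
    linarith
  have hXn : (0 : ℝ) ≤ X := Nat.cast_nonneg _
  have e1 : (1 - ε) * α / (Gm * Real.log (Real.log (1 / δ))) * X =
      ((1 - ε) * (α * X)) / (Gm * Real.log (Real.log (1 / δ))) := by ring
  rw [e1]
  apply div_le_div_of_nonneg_right _ (by positivity)
  have h10 : (1 - ε) * (α * X) ≤ (1 - e) * ((1 - e) * (α * X)) := by
    have h11 : 0 ≤ α * (X : ℝ) := by positivity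
    have h12 : 1 - ε ≤ (1 - e) * (1 - e) := by nlinarith
    have := mul_le_mul_of_nonneg_right h12 h11
    linarith
  refine h10.trans ?_
  apply mul_le_mul_of_nonneg_left _ (by linarith)
  calc (1 - e) * (α * X) = α * ((1 - e) * X) := by ring
    _ ≤ α * N := mul_le_mul_of_nonneg_left hNr hα.le

/-- optimality -/
theorem dens_opt {ε : ℝ} (hε : 0 < ε) : ∃ δ₀ : ℝ, 0 < δ₀ ∧ δ₀ < Real.exp (-1) ∧ ∀ δ : ℝ, 0 < δ → δ ≤ δ₀ →
    ∃ M : Set ℕ, (∀ᶠ Y : ℕ in atTop, δ * Y ≤ (cM M Y : ℝ)) ∧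
      ∀ᶠ X : ℕ in atTop, (cnt Set.univ M X : ℝ) ≤ (1 + ε) / (Gm * Real.log (Real.log (1 / δ))) * X := by
  classical
  have hG := Gm_pos
  obtain ⟨e, he⟩ : ∃ e, e = min ε 1 / 8 := ⟨_, rfl⟩
  have he0 : 0 < e := by
    rw [he]
    have : 0 < min ε 1 := lt_min hε one_pos
    positivity
  have heε : 8 * e ≤ ε := by rw [he]; have := min_le_left ε 1; linarith
  have he1 : e ≤ 1 / 8 := by rw [he]; have := min_le_right ε 1; linarith
  obtain ⟨w0, hw02, hw0⟩ := mert he0
  -- `T = log (1/δ)` is large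
  have hl4 : 0 < Real.log 4 := Real.log_pos (by norm_num)
  have hl42 : Real.log 4 < 2 := by
    have h1 : Real.log 4 = 2 * Real.log 2 := by
      have : (4 : ℝ) = 2 ^ 2 := by norm_num
      rw [this, Real.log_pow]
      norm_num
    rw [h1]
    have := Real.log_two_lt_d9
    linarith
  set T0 : ℝ := 4 * w0 + 16 + Real.exp (Real.log 4 / e) with hT0
  have hT0b : (0 : ℝ) < Real.exp (Real.log 4 / e) := Real.exp_pos _
  have hw00 : (2 : ℝ) ≤ w0 := by exact_mod_cast hw02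
  refine ⟨Real.exp (-T0), Real.exp_pos _, Real.exp_lt_exp.2 (by linarith), fun δ hδ hδ0 => ?_⟩
  obtain ⟨T, hT⟩ : ∃ T, T = Real.log (1 / δ) := ⟨_, rfl⟩
  have hTT0 : T0 ≤ T := by
    rw [hT, one_div, Real.log_inv]
    have := Real.log_le_log hδ hδ0
    rw [Real.log_exp] at this
    linarith
  have hδT : δ = Real.exp (-T) := by
    rw [hT, one_div, Real.log_inv, neg_neg, Real.exp_log hδ]
  have hT00 : 0 < T := by linarith
  set w : ℕ := ⌊(T - 1) / Real.log 4⌋₊ with hw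
  have hwle : (w : ℝ) ≤ (T - 1) / Real.log 4 := Nat.floor_le (by
    apply div_nonneg _ hl4.le
    linarith)
  have hwge : T / 4 ≤ w := by
    have h1 : (T - 1) / Real.log 4 < w + 1 := Nat.lt_floor_add_one _
    have h2 : (T - 1) / 2 ≤ (T - 1) / Real.log 4 := by
      apply div_le_div_of_nonneg_left (by linarith) hl4 hl42.le
    linarith
  have hw0n : w0 ≤ w := by
    have : (w0 : ℝ) ≤ w := by linarith
    exact_mod_cast this
  have hw2 : 2 ≤ w := hw02.trans hw0n
  have hlogw : (1 - e) * Real.log T ≤ Real.log w := by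
    have h1 : Real.log (T / 4) ≤ Real.log w := Real.log_le_log (by positivity) hwge
    rw [Real.log_div hT00.ne' (by norm_num)] at h1
    have h2 : Real.log 4 / e ≤ Real.log T := by
      rw [Real.le_log_iff_exp_le hT00]
      linarith
    rw [div_le_iff₀ he0] at h2
    linarith
  have hlogT : 0 < Real.log T := Real.log_pos (by linarith)
  -- the set
  set W := Wp w with hW
  have hW1 : 1 ≤ W := Wp_pos w
  have hWup : 2 * δ * W ≤ 1 := by
    have h1 : W ≤ 4 ^ w := by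
      have h2 : W = primorial w := by
        rw [hW]
        unfold Wp primorial pz
        apply prod_congr _ fun _ _ => rfl
        ext p
        rw [mem_filter, mem_filter, mem_Icc, mem_range]
        constructor
        · rintro ⟨⟨-, h3⟩, h4⟩
          exact ⟨by omega, h4⟩
        · rintro ⟨h3, h4⟩
          exact ⟨⟨h4.one_lt.le, by omega⟩, h4⟩
      rw [h2]
      exact primorial_le_four_pow w
    have h3 : (W : ℝ) ≤ Real.exp (T - 1) := by
      calc (W : ℝ) ≤ (4 : ℝ) ^ w := by exact_mod_cast h1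
        _ = Real.exp (w * Real.log 4) := by rw [Real.exp_nat_mul, Real.exp_log (by norm_num)]
        _ ≤ Real.exp (T - 1) := by
            apply Real.exp_le_exp.2
            rwa [← le_div_iff₀ hl4]
    calc 2 * δ * W ≤ 2 * δ * Real.exp (T - 1) := by gcongr
      _ = 2 * Real.exp (-1) := by
          rw [hδT, mul_assoc, ← Real.exp_add]
          congr 2
          ring
      _ ≤ 1 := by
          rw [Real.exp_neg]
          have := Real.exp_one_gt_d9
          rw [← div_eq_mul_inv, div_le_one (by linarith)]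
          linarith
  have hW0 : (0 : ℝ) < W := by exact_mod_cast hW1
  refine ⟨{m | W ∣ m}, ?_, ?_⟩
  · rw [eventually_atTop]
    obtain ⟨Y0, hY0⟩ := exists_nat_gt (1 / δ)
    refine ⟨Y0, fun Y hY => ?_⟩
    have h1 : Y / W ≤ cM {m | W ∣ m} Y := by
      rw [← Nat.Ioc_filter_dvd_card_eq_div]
      have hin : ∀ m : ℕ, m ∈ (Icc 1 Y).filter (fun m => m ∈ {m : ℕ | W ∣ m}) ↔ m ∈ Icc 1 Y ∧ W ∣ m := fun m => mem_filter
      refine (card_le_card (t := (Icc 1 Y).filter (fun m => m ∈ {m : ℕ | W ∣ m})) ?_).trans (le_of_eq ?_)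
      · intro m hm
        rw [mem_filter, mem_Ioc] at hm
        rw [hin, mem_Icc]
        exact ⟨⟨hm.1.1, hm.1.2⟩, hm.2⟩
      · unfold cM
        congr!
    have h1' : ((Y / W : ℕ) : ℝ) ≤ (cM {m | W ∣ m} Y : ℝ) := Nat.cast_le.2 h1
    have h4 : (Y : ℝ) / W < ((Y / W : ℕ) : ℝ) + 1 := by
      rw [div_lt_iff₀ hW0]
      have h5 : Y < (Y / W + 1) * W := by
        have := Nat.div_add_mod Y W
        have := Nat.mod_lt Y hW1
        nlinarith
      exact_mod_cast h5
    have h6 : 2 * δ * Y ≤ Y / W := by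
      rw [le_div_iff₀ hW0]
      have h7 : (0 : ℝ) ≤ Y := Nat.cast_nonneg _
      nlinarith
    have h8 : 1 ≤ δ * Y := by
      have : 1 / δ ≤ Y := hY0.le.trans (by exact_mod_cast hY)
      rw [div_le_iff₀ hδ] at this
      linarith
    linarith
  · obtain ⟨hVlow, -⟩ := hw0 w hw0n
    have hV0 := Vz_pos w
    have hVup : Vz w ≤ (1 + 4 * e) / (Gm * Real.log T) := by
      rw [le_div_iff₀ (by positivity)]
      have h1 : (1 - e) * (Gm * ((1 - e) * Real.log T)) ≤ (Vz w)⁻¹ := by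
        refine le_trans ?_ hVlow
        apply mul_le_mul_of_nonneg_left _ (by linarith)
        exact mul_le_mul_of_nonneg_left hlogw hG.le
      have h2 := mul_le_mul_of_nonneg_left h1 hV0.le
      rw [mul_inv_cancel₀ hV0.ne'] at h2
      have h3 : 0 ≤ Vz w * (Gm * Real.log T) := by positivity
      have h4 : 1 ≤ (1 + 4 * e) * ((1 - e) * (1 - e)) := by
        have : (1 + 4 * e) * ((1 - e) * (1 - e)) = 1 + e * (2 - 7 * e) + 4 * e ^ 3 := by ring
        rw [this]
        have h5 : 0 ≤ e * (2 - 7 * e) := mul_nonneg he0.le (by linarith)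
        have h6 : 0 ≤ 4 * e ^ 3 := by positivity
        linarith
      have h7 : Vz w * (Gm * Real.log T) ≤ (1 + 4 * e) * (Vz w * ((1 - e) * (Gm * ((1 - e) * Real.log T)))) := by
        have := mul_le_mul_of_nonneg_right h4 h3
        calc Vz w * (Gm * Real.log T) = 1 * (Vz w * (Gm * Real.log T)) := (one_mul _).symm
          _ ≤ _ := this
          _ = _ := by ring
      have h8 := mul_le_mul_of_nonneg_left h2 (by linarith : 0 ≤ 1 + 4 * e)
      linarith
    obtain ⟨X1, hX1⟩ := card_T w (by omega)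
    obtain ⟨X2, hX2⟩ := ev_L' (4 / (e * Vz w))
    obtain ⟨X3, hX3⟩ := ev_log' 0 (8 * w / (e * Vz w))
    rw [eventually_atTop]
    refine ⟨X1 + X2 + X3 + 4, fun X hX => ?_⟩
    have b1 := hX1 X (by omega) 0
    have b2 := hX2 X (by omega)
    have b3 := hX3 X (by omega)
    rw [pow_zero, mul_one] at b3
    have hXr : (4 : ℝ) ≤ X := by exact_mod_cast (by omega : 4 ≤ X)
    have hX0 : (0 : ℝ) < X := by linarith
    have hlX : 0 < Real.log X := Real.log_pos (by linarith)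
    have hsub : (Icc 1 X).filter (fun n => ∃ p m : ℕ, p.Prime ∧ p ∈ (Set.univ : Set ℕ) ∧ m ∈ {m : ℕ | W ∣ m} ∧ 1 ≤ m ∧ n = p + m ^ 2) ⊆
        ((Icc 1 X).filter (fun n => ∀ p ∈ pz w, ¬ p ∣ n + 0)) ∪ sums (pz w) (Icc 1 (Nat.sqrt X)) := by
      intro n hn
      rw [mem_filter, mem_Icc] at hn
      obtain ⟨hn1, p, m, hp, -, hm, hm1, rfl⟩ := hn
      rw [mem_union]
      by_cases hpw : p ≤ w
      · right
        rw [mem_sums]
        refine ⟨p, mem_pz.2 ⟨hpw, hp⟩, m, ?_, rfl⟩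
        rw [mem_Icc]
        refine ⟨hm1, ?_⟩
        rw [Nat.le_sqrt, ← pow_two]
        omega
      · left
        rw [mem_filter, mem_Icc]
        refine ⟨hn1, fun q hq hqd => ?_⟩
        rw [add_zero] at hqd
        have h1 : q ∣ m ^ 2 := dvd_pow ((dvd_Wp hq).trans hm) two_ne_zero
        have h2 : q ∣ p := (Nat.dvd_add_left h1).1 hqd
        have h3 := (Nat.prime_dvd_prime_iff_eq (mem_pz.1 hq).2 hp).1 h2
        have h4 := (mem_pz.1 hq).1
        omega
    have hc1 : (cnt Set.univ {m | W ∣ m} X : ℝ) ≤ (X * Vz w + X / Real.log X) + w * Real.sqrt X := by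
      have h1 : (sums (pz w) (Icc 1 (Nat.sqrt X))).card ≤ w * Nat.sqrt X := by
        unfold sums
        refine card_image_le.trans ?_
        rw [card_product, Nat.card_Icc, Nat.add_sub_cancel]
        exact Nat.mul_le_mul_right _ (Pool.Agent.H373R2.T7.card_pz_le w)
      have h2 : (Nat.sqrt X : ℝ) ≤ Real.sqrt X := Real.nat_sqrt_le_real_sqrt
      unfold cnt
      calc _ ≤ ((((Icc 1 X).filter (fun n => ∀ p ∈ pz w, ¬ p ∣ n + 0)) ∪ sums (pz w) (Icc 1 (Nat.sqrt X))).card : ℝ) :=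
            Nat.cast_le.2 (card_le_card hsub)
        _ ≤ (((Icc 1 X).filter (fun n => ∀ p ∈ pz w, ¬ p ∣ n + 0)).card : ℝ) + ((sums (pz w) (Icc 1 (Nat.sqrt X))).card : ℝ) := by
            exact_mod_cast card_union_le _ _
        _ ≤ (X * Vz w + X / Real.log X) + w * Nat.sqrt X := add_le_add b1 (by exact_mod_cast h1)
        _ ≤ _ := by gcongr
    refine hc1.trans ?_
    have hs : Real.sqrt X * Real.sqrt X = X := Real.mul_self_sqrt hX0.le
    have hsX : 0 < Real.sqrt X := Real.sqrt_pos.2 hX0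
    have he3 : 0 < e * Vz w := by positivity
    have h5 : X / Real.log X ≤ e * Vz w * X := by
      rw [div_le_iff₀ hlX]
      rw [div_le_iff₀ he3] at b2
      calc (X : ℝ) ≤ X * (Real.log X * (e * Vz w)) := le_mul_of_one_le_right hX0.le (by linarith)
        _ = _ := by ring
    have h6 : w * Real.sqrt X ≤ e * Vz w * X := by
      rw [div_le_iff₀ he3] at b3
      have hwn : (0 : ℝ) ≤ w := Nat.cast_nonneg _
      calc w * Real.sqrt X ≤ (Real.sqrt X * (e * Vz w)) * Real.sqrt X := by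
            apply mul_le_mul_of_nonneg_right _ hsX.le
            linarith
        _ = (e * Vz w) * (Real.sqrt X * Real.sqrt X) := by ring
        _ = _ := by rw [hs]
    rw [← hT]
    calc (X * Vz w + X / Real.log X) + w * Real.sqrt X ≤ (X * Vz w + e * Vz w * X) + e * Vz w * X :=
          add_le_add (add_le_add le_rfl h5) h6
      _ = (1 + 2 * e) * Vz w * X := by ring
      _ ≤ (1 + 2 * e) * ((1 + 4 * e) / (Gm * Real.log T)) * X := by gcongr
      _ = ((1 + 2 * e) * (1 + 4 * e)) / (Gm * Real.log T) * X := by ring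
      _ ≤ (1 + ε) / (Gm * Real.log T) * X := by
          apply mul_le_mul_of_nonneg_right _ hX0.le
          apply div_le_div_of_nonneg_right _ (by positivity)
          nlinarith

end Pool.Agent.V8H21.SQ
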