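import Pool.Agent.V8H21.SQ.Dens2
import Pool.Agent.H305R2.Smooth

set_option autoImplicit false

/-! Sums of a dense set of primes and a dense set of squares: the asymptotic lower bound. -/

namespace Pool.Agent.V8H21.SQ

open Finset Filter Topology
open Pool.Agent.H373R2.T7 (Vz pz Vz_pos mem_pz Vz_le_one ev_L' ev_log')

/-- `e ^ γ` -/
noncomputable def Gm : ℝ := Real.exp Real.eulerMascheroniConstant

lemma Gm_pos : 0 < Gm := Real.exp_pos _

lemma VV_eq (w : ℕ) : Pool.Agent.H305R2.VV w = (Vz w)⁻¹ := by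
  unfold Pool.Agent.H305R2.VV Vz pz
  rw [prod_inv_distrib]
  simp only [one_div]

lemma mert {ε : ℝ} (hε : 0 < ε) : ∃ w0 : ℕ, 2 ≤ w0 ∧ ∀ w : ℕ, w0 ≤ w →
    (1 - ε) * (Gm * Real.log w) ≤ (Vz w)⁻¹ ∧ (Vz w)⁻¹ ≤ (1 + ε) * (Gm * Real.log w) := by
  have h1 := Pool.Agent.H305R2.VV_tendsto
  have hG := Gm_pos
  have h2 := (Metric.tendsto_atTop.1 h1) (ε * Gm) (by positivity)
  obtain ⟨w0, h3⟩ := h2
  refine ⟨max w0 2, le_max_right _ _, fun w hw => ?_⟩
  have h4 := h3 w ((le_max_left _ _).trans hw)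
  have hw2 : 2 ≤ w := (le_max_right _ _).trans hw
  have hl : 0 < Real.log w := Real.log_pos (by exact_mod_cast (by omega : 1 < w))
  rw [Real.dist_eq, VV_eq] at h4
  obtain ⟨h5, h6⟩ := abs_lt.1 h4
  change -(ε * Gm) < (Vz w)⁻¹ / Real.log w - Gm at h5
  change (Vz w)⁻¹ / Real.log w - Gm < ε * Gm at h6
  have h7 : (1 - ε) * Gm < (Vz w)⁻¹ / Real.log w := by linarith
  have h8 : (Vz w)⁻¹ / Real.log w < (1 + ε) * Gm := by linarith
  rw [lt_div_iff₀ hl] at h7
  rw [div_lt_iff₀ hl] at h8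
  constructor
  · calc _ = (1 - ε) * Gm * Real.log w := by ring
      _ ≤ _ := h7.le
  · calc _ ≤ (1 + ε) * Gm * Real.log w := h8.le
      _ = _ := by ring

/-- the logarithms of a dense set of primes -/
lemma sum_log_ge {ε α : ℝ} (hε : 0 < ε) (hε1 : ε ≤ 1) (hα : 0 < α) : ∃ N0 : ℕ, ∀ N : ℕ, N0 ≤ N → ∀ A : Finset ℕ,
    (∀ a ∈ A, a.Prime ∧ a ≤ N) → α * (N / Real.log N) ≤ (A.card : ℝ) → (1 - ε) * (α * N) ≤ ∑ a ∈ A, Real.log a := by
  have h1 := (isLittleO_log_rpow_atTop (show 0 < ε / 2 by positivity)).bound (show 0 < ε * α / 2 by positivity)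
  have h2 := (tendsto_natCast_atTop_atTop (R := ℝ)).eventually h1
  obtain ⟨N1, h3⟩ := eventually_atTop.1 h2
  refine ⟨N1 + 3, fun N hN A hA hAc => ?_⟩
  have b1 := h3 N (by omega)
  have hNr : (3 : ℝ) ≤ N := by exact_mod_cast (by omega : 3 ≤ N)
  have hN0 : (0 : ℝ) < N := by linarith
  have hL0 : 0 < Real.log N := Real.log_pos (by linarith)
  rw [Real.norm_of_nonneg hL0.le, Real.norm_of_nonneg (by positivity)] at b1
  set B := A.filter (fun a : ℕ => (N : ℝ) ^ (1 - ε / 2) < a) with hB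
  have hBc : (A.card : ℝ) ≤ B.card + (N : ℝ) ^ (1 - ε / 2) := by
    have h4 : A.card = B.card + (A.filter (fun a : ℕ => ¬ (N : ℝ) ^ (1 - ε / 2) < a)).card :=
      (card_filter_add_card_filter_not (s := A) (fun a : ℕ => (N : ℝ) ^ (1 - ε / 2) < a)).symm
    have h5 : (A.filter (fun a : ℕ => ¬ (N : ℝ) ^ (1 - ε / 2) < a)) ⊆ Icc 1 ⌊(N : ℝ) ^ (1 - ε / 2)⌋₊ := by
      intro a ha
      rw [mem_filter] at ha
      rw [mem_Icc]
      refine ⟨(hA a ha.1).1.one_lt.le, Nat.le_floor ?_⟩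
      exact not_lt.1 ha.2
    have h6 := card_le_card h5
    rw [Nat.card_Icc, Nat.add_sub_cancel] at h6
    have h7 : ((A.filter (fun a : ℕ => ¬ (N : ℝ) ^ (1 - ε / 2) < a)).card : ℝ) ≤ (N : ℝ) ^ (1 - ε / 2) := by
      calc _ ≤ ((⌊(N : ℝ) ^ (1 - ε / 2)⌋₊ : ℕ) : ℝ) := by exact_mod_cast h6
        _ ≤ _ := Nat.floor_le (by positivity)
    rw [h4]
    push_cast
    linarith
  have hsum : (B.card : ℝ) * ((1 - ε / 2) * Real.log N) ≤ ∑ a ∈ A, Real.log a := by
    calc (B.card : ℝ) * ((1 - ε / 2) * Real.log N) = ∑ _a ∈ B, (1 - ε / 2) * Real.log N := by rw [sum_const, nsmul_eq_mul]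
      _ ≤ ∑ a ∈ B, Real.log a := by
          refine sum_le_sum fun a ha => ?_
          rw [hB, mem_filter] at ha
          rw [← Real.log_rpow hN0]
          exact Real.log_le_log (by positivity) ha.2.le
      _ ≤ ∑ a ∈ A, Real.log a := by
          apply sum_le_sum_of_subset_of_nonneg (filter_subset _ _)
          intro a _ _
          exact Real.log_natCast_nonneg _
  refine le_trans ?_ hsum
  have h8 : (N : ℝ) ^ (1 - ε / 2) * Real.log N ≤ ε * α / 2 * N := by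
    calc (N : ℝ) ^ (1 - ε / 2) * Real.log N ≤ (N : ℝ) ^ (1 - ε / 2) * (ε * α / 2 * (N : ℝ) ^ (ε / 2)) := by gcongr
      _ = ε * α / 2 * ((N : ℝ) ^ (1 - ε / 2) * (N : ℝ) ^ (ε / 2)) := by ring
      _ = ε * α / 2 * N := by
          rw [← Real.rpow_add hN0]
          norm_num
  have h9 : α * N ≤ ((B.card : ℝ) + (N : ℝ) ^ (1 - ε / 2)) * Real.log N := by
    have h10 := mul_le_mul_of_nonneg_right (hAc.trans hBc) hL0.le
    calc α * N = α * (N / Real.log N) * Real.log N := by field_simp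
      _ ≤ _ := h10
  have h11 : α * N - ε * α / 2 * N ≤ B.card * Real.log N := by
    have : ((B.card : ℝ) + (N : ℝ) ^ (1 - ε / 2)) * Real.log N = B.card * Real.log N + (N : ℝ) ^ (1 - ε / 2) * Real.log N := by ring
    linarith
  have h12 : 0 ≤ 1 - ε / 2 := by linarith
  have h13 := mul_le_mul_of_nonneg_left h11 h12
  have h14 : (1 - ε) * (α * N) ≤ (1 - ε / 2) * (α * N - ε * α / 2 * N) := by
    have : (1 - ε / 2) * (α * N - ε * α / 2 * N) = (1 - ε + ε ^ 2 / 4) * (α * N) := by ring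
    rw [this]
    have h15 : 0 < α * N := by positivity
    have : 0 ≤ ε ^ 2 / 4 := by positivity
    nlinarith
  calc (1 - ε) * (α * N) ≤ (1 - ε / 2) * (α * N - ε * α / 2 * N) := h14
    _ ≤ (1 - ε / 2) * (B.card * Real.log N) := h13
    _ = _ := by ring

/-- the finite form -/
theorem dens_half {ε α : ℝ} (hε : 0 < ε) (hε1 : ε ≤ 1 / 2) (hα : 0 < α) : ∃ δ₀ : ℝ, 0 < δ₀ ∧ δ₀ < Real.exp (-1) ∧ ∀ δ : ℝ, 0 < δ → δ ≤ δ₀ →
    ∀ K : ℕ, ∃ N0 : ℕ, ∀ N : ℕ, N0 ≤ N → ∀ Y : ℕ, Y ^ 2 ≤ N → N ≤ K * Y ^ 2 → ∀ A M : Finset ℕ,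
      (∀ a ∈ A, a.Prime ∧ a ≤ N) → M ⊆ Icc 1 Y → α * (N / Real.log N) ≤ (A.card : ℝ) → δ * Y ≤ (M.card : ℝ) →
      (1 - ε) * (α * N) / (Gm * Real.log (Real.log (1 / δ))) ≤ ((sums A M).card : ℝ) := by
  have hG := Gm_pos
  set β : ℝ := min α 1 with hβ
  have hβ0 : 0 < β := lt_min hα one_pos
  have hβ1 : β ≤ 1 := min_le_right _ _
  have hβα : β ≤ α := min_le_left _ _
  set r : ℝ := ε * β / 24 with hr
  have hr0 : 0 < r := by positivity
  have hr1 : r ≤ 1 := by rw [hr]; nlinarith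
  set η : ℝ := r ^ 2 with hη
  have hη0 : 0 < η := by positivity
  have hη1 : η ≤ 1 := by rw [hη]; nlinarith
  have hsη : Real.sqrt η = r := by rw [hη]; exact Real.sqrt_sq hr0.le
  set a : ℝ := Real.log (1 + η) with ha
  have ha0 : 0 < a := Real.log_pos (by linarith)
  have ha1 : a ≤ 1 := by
    have := Real.log_le_sub_one_of_pos (show 0 < 1 + η by linarith)
    rw [ha]
    linarith
  obtain ⟨w0, hw02, hw0⟩ := mert (show 0 < ε / 8 by positivity)
  obtain ⟨N1, hN1⟩ := sum_log_ge (show 0 < ε / 4 by positivity) (by linarith) hα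
  set T0 : ℝ := (w0 : ℝ) + (Real.exp 4 + 1) * (1 + η) / η + Real.exp (8 / ε * Real.log (2 / a + 1)) + 3 with hT0
  have hT0a : (0 : ℝ) ≤ (Real.exp 4 + 1) * (1 + η) / η := by positivity
  have hT0b : (0 : ℝ) < Real.exp (8 / ε * Real.log (2 / a + 1)) := Real.exp_pos _
  have hw00 : (0 : ℝ) ≤ w0 := Nat.cast_nonneg _
  refine ⟨Real.exp (-T0), Real.exp_pos _, Real.exp_lt_exp.2 (by linarith), fun δ hδ hδ0 K => ?_⟩
  obtain ⟨T, hT⟩ : ∃ T, T = Real.log (1 / δ) := ⟨_, rfl⟩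
  have hTT0 : T0 ≤ T := by
    rw [hT, one_div, Real.log_inv]
    have := Real.log_le_log hδ hδ0
    rw [Real.log_exp] at this
    linarith
  have hδT : δ = Real.exp (-T) := by
    rw [hT, one_div, Real.log_inv, neg_neg, Real.exp_log hδ]
  have hT3 : 3 ≤ T := by linarith
  have hT00 : 0 < T := by linarith
  set w : ℕ := ⌈2 * T / a⌉₊ with hw
  have hwT : 2 * T / a ≤ w := Nat.le_ceil _
  have hwT' : 2 * T ≤ 2 * T / a := by
    rw [le_div_iff₀ ha0]
    nlinarith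
  have hw0r : (w0 : ℝ) ≤ w := by linarith
  have hw0n : w0 ≤ w := by exact_mod_cast hw0r
  have hw2 : 2 ≤ w := hw02.trans hw0n
  have hwup : (w : ℝ) ≤ (2 / a + 1) * T := by
    have h1 : (w : ℝ) < 2 * T / a + 1 := Nat.ceil_lt_add_one (by positivity)
    have h2 : 2 * T / a + 1 ≤ (2 / a + 1) * T := by
      have : (2 / a + 1) * T = 2 * T / a + T := by ring
      rw [this]
      linarith
    linarith
  have hlogw : Real.log w ≤ (1 + ε / 8) * Real.log T := by
    have hwpos : (0 : ℝ) < w := by linarith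
    have h1 : Real.log w ≤ Real.log (2 / a + 1) + Real.log T := by
      rw [← Real.log_mul (by positivity) (by positivity)]
      exact Real.log_le_log hwpos hwup
    have h2 : 8 / ε * Real.log (2 / a + 1) ≤ Real.log T := by
      rw [Real.le_log_iff_exp_le hT00]
      linarith
    have h3 : Real.log (2 / a + 1) ≤ ε / 8 * Real.log T := by
      calc Real.log (2 / a + 1) = ε / 8 * (8 / ε * Real.log (2 / a + 1)) := by field_simp
        _ ≤ _ := mul_le_mul_of_nonneg_left h2 (by positivity)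
    linarith
  have hlogT : 0 < Real.log T := Real.log_pos (by linarith)
  have hH : (Real.exp 4 + 1) * (1 + η) ≤ η * δ * (1 + η) ^ w := by
    have h1 : Real.exp (2 * T) ≤ (1 + η) ^ w := by
      have h2 : (1 + η) ^ w = Real.exp (w * a) := by
        rw [ha, Real.exp_nat_mul, Real.exp_log (by linarith)]
      rw [h2]
      apply Real.exp_le_exp.2
      rw [div_le_iff₀ ha0] at hwT
      exact hwT
    have h3 : (Real.exp 4 + 1) * (1 + η) / η ≤ Real.exp T := by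
      have := Real.add_one_le_exp T
      linarith
    rw [div_le_iff₀ hη0] at h3
    calc (Real.exp 4 + 1) * (1 + η) ≤ Real.exp T * η := h3
      _ = η * δ * Real.exp (2 * T) := by
          rw [hδT]
          have : Real.exp (2 * T) = Real.exp T * Real.exp T := by rw [← Real.exp_add]; ring_nf
          have h4 : Real.exp (-T) * Real.exp T = 1 := by rw [← Real.exp_add]; simp
          rw [this]
          calc Real.exp T * η = η * (Real.exp (-T) * Real.exp T) * Real.exp T := by rw [h4]; ring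
            _ = _ := by ring
      _ ≤ _ := mul_le_mul_of_nonneg_left h1 (by positivity)
  obtain ⟨N0, hN0⟩ := core w hw2 δ η hδ hη0 hη1 hH K
  refine ⟨N0 + N1, fun N hN Y hY1 hY2 A M hA hM hAc hMc => ?_⟩
  have h1 := hN0 N (by omega) Y hY1 hY2 A M hA hM hMc
  have h2 := hN1 N (by omega) A hA hAc
  refine le_trans ?_ h1
  rw [hsη]
  have hNn : (0 : ℝ) ≤ N := Nat.cast_nonneg _
  have h3 : (1 - ε / 2) * (α * N) ≤ ∑ a ∈ A, Real.log a - 6 * r * N := by
    have h4 : 6 * r * N ≤ ε / 4 * (α * N) := by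
      rw [hr]
      have : 6 * (ε * β / 24) * (N : ℝ) = ε / 4 * (β * N) := by ring
      rw [this]
      gcongr
    linarith
  have hV0 := Vz_pos w
  obtain ⟨-, hVup⟩ := hw0 w hw0n
  have h5 : (Vz w)⁻¹ ≤ (1 + ε / 8) ^ 2 * (Gm * Real.log T) := by
    calc (Vz w)⁻¹ ≤ (1 + ε / 8) * (Gm * Real.log w) := hVup
      _ ≤ (1 + ε / 8) * (Gm * ((1 + ε / 8) * Real.log T)) := by gcongr
      _ = _ := by ring
  rw [← hT]
  have h6 : (1 - ε) / (Gm * Real.log T) ≤ Vz w * (1 - ε / 2) := by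
    rw [div_le_iff₀ (by positivity)]
    have h7 : 1 ≤ Vz w * ((1 + ε / 8) ^ 2 * (Gm * Real.log T)) := by
      calc (1 : ℝ) = Vz w * (Vz w)⁻¹ := (mul_inv_cancel₀ hV0.ne').symm
        _ ≤ _ := mul_le_mul_of_nonneg_left h5 hV0.le
    have h8 : (1 - ε) * (1 + ε / 8) ^ 2 ≤ 1 - ε / 2 := by
      have : (1 - ε) * (1 + ε / 8) ^ 2 = 1 - 3 * ε / 4 - 15 * ε ^ 2 / 64 - ε ^ 3 / 64 := by ring
      rw [this]
      have h9 : 0 < ε ^ 2 := by positivity
      have h10 : 0 < ε ^ 3 := by positivity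
      linarith
    have h11 : 0 ≤ Vz w * (Gm * Real.log T) := by positivity
    have h12 : (1 - ε) * ((1 + ε / 8) ^ 2 * (Vz w * (Gm * Real.log T))) ≤ (1 - ε / 2) * (Vz w * (Gm * Real.log T)) := by
      have := mul_le_mul_of_nonneg_right h8 h11
      linarith
    have h13 : (1 - ε) ≤ (1 - ε) * ((1 + ε / 8) ^ 2 * (Vz w * (Gm * Real.log T))) := by
      have h14 : 0 ≤ 1 - ε := by linarith
      have h15 : 1 ≤ (1 + ε / 8) ^ 2 * (Vz w * (Gm * Real.log T)) := by linarith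
      nlinarith
    linarith
  calc (1 - ε) * (α * N) / (Gm * Real.log T) = ((1 - ε) / (Gm * Real.log T)) * (α * N) := by ring
    _ ≤ (Vz w * (1 - ε / 2)) * (α * N) := mul_le_mul_of_nonneg_right h6 (by positivity)
    _ = Vz w * ((1 - ε / 2) * (α * N)) := by ring
    _ ≤ _ := mul_le_mul_of_nonneg_left h3 hV0.le

end Pool.Agent.V8H21.SQ
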