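import Mathlib

set_option autoImplicit false

/-! Primes and proper prime powers (after `Pool.Agent.R460.SQ.Main`). -/

namespace Pool.Agent.V8H21.SQ

open Finset

/-- the logarithm on the primes -/
noncomputable def thp (l : ℕ) : ℝ := if l.Prime then Real.log l else 0

/-- the von Mangoldt function outside the primes -/
noncomputable def ppw (l : ℕ) : ℝ := if l.Prime then 0 else ArithmeticFunction.vonMangoldt l

lemma vm_split (l : ℕ) : ArithmeticFunction.vonMangoldt l = thp l + ppw l := by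
  unfold thp ppw
  split_ifs with h
  · rw [ArithmeticFunction.vonMangoldt_apply_prime h, add_zero]
  · rw [zero_add]

lemma ppw_nn (l : ℕ) : 0 ≤ ppw l := by
  unfold ppw
  split_ifs
  · exact le_rfl
  · exact ArithmeticFunction.vonMangoldt_nonneg

lemma thp_nn (l : ℕ) : 0 ≤ thp l := by
  unfold thp
  split_ifs with h
  · exact Real.log_natCast_nonneg _
  · exact le_rfl

lemma thp_zero : thp 0 = 0 := by
  unfold thp
  rw [if_neg Nat.not_prime_zero]

lemma ppw_zero : ppw 0 = 0 := by
  unfold ppw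
  simp

lemma thp_le {l N : ℕ} (h : l ≤ N) : thp l ≤ Real.log N := by
  unfold thp
  split_ifs with hp
  · exact Real.log_le_log (by exact_mod_cast hp.pos) (by exact_mod_cast h)
  · exact Real.log_natCast_nonneg _

lemma sum_ppw {N : ℕ} (hN : 1 ≤ N) : ∑ l ∈ Icc 1 N, ppw l ≤ 2 * Real.sqrt N * Real.log N := by
  have h1 := Chebyshev.psi_sub_theta_le (x := (N : ℝ)) (by exact_mod_cast hN)
  rw [Chebyshev.psi_sub_theta_eq_sum_not_prime, Nat.floor_natCast, sum_filter] at h1
  refine le_trans (le_of_eq ?_) h1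
  refine sum_congr ?_ fun l _ => ?_
  · ext b
    rw [mem_Icc, mem_Ioc]
    omega
  · unfold ppw
    by_cases h : l.Prime
    · rw [if_pos h, if_neg (not_not.2 h)]
    · rw [if_neg h, if_pos h]

/-- prime powers along the squares -/
lemma pp_sum {A y : ℕ} (hA : 1 ≤ A) :
    ∑ n ∈ Icc 1 A, ∑ m ∈ Icc 1 y, ppw (n - m ^ 2) ≤ y * (2 * Real.sqrt A * Real.log A) := by
  rw [sum_comm]
  have h : ∀ m ∈ Icc 1 y, ∑ n ∈ Icc 1 A, ppw (n - m ^ 2) ≤ 2 * Real.sqrt A * Real.log A := by
    intro m _
    refine le_trans ?_ (sum_ppw hA)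
    have h1 : ∑ n ∈ Icc 1 A, ppw (n - m ^ 2) = ∑ n ∈ (Icc 1 A).filter (fun n => m ^ 2 < n), ppw (n - m ^ 2) := by
      rw [sum_filter]
      refine sum_congr rfl fun n _ => ?_
      split_ifs with h
      · rfl
      · rw [Nat.sub_eq_zero_of_le (by omega), ppw_zero]
    rw [h1, ← sum_image (f := ppw) (g := fun n : ℕ => n - m ^ 2)]
    · apply sum_le_sum_of_subset_of_nonneg
      · intro l hl
        rw [mem_image] at hl
        obtain ⟨n, hn, rfl⟩ := hl
        rw [mem_filter, mem_Icc] at hn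
        rw [mem_Icc]
        omega
      · intro l _ _
        exact ppw_nn l
    · intro a ha b hb hab
      rw [mem_coe, mem_filter] at ha hb
      simp only at hab
      omega
  calc ∑ m ∈ Icc 1 y, ∑ n ∈ Icc 1 A, ppw (n - m ^ 2) ≤ ∑ _m ∈ Icc 1 y, (2 * Real.sqrt A * Real.log A) := sum_le_sum h
    _ = _ := by rw [sum_const, Nat.card_Icc, nsmul_eq_mul, Nat.add_sub_cancel]

end Pool.Agent.V8H21.SQ
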