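import Pool.Agent.V8H21.SQ.Moment
import Pool.Agent.H373R2.T7.LamZ2
import Pool.Agent.H373R2.T7.Minor

set_option autoImplicit false

/-! The correlations of the difference of two sieve models. -/

namespace Pool.Agent.V8H21.SQ

open Finset
open Pool.Agent.H373R2.T7 (Vz pz Vz_pos mem_pz Vz_le_one lamz lamz_nonneg nuB PerB sys_count Vz_inv_small ev_L' ev_log')

/-- the difference of two sieve models -/
noncomputable def d2 (w z n : ℕ) : ℝ := lamz z n - lamz w n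

/-- one class -/
def Qs (h : ℕ) (p n : ℕ) : Prop := p ∣ n + h

/-- two classes -/
def Qd (h : ℕ) (p n : ℕ) : Prop := Qs 0 p n ∨ Qs h p n

lemma Qs_per (h p n : ℕ) : Qs h p n ↔ Qs h p (n % p) := by
  unfold Qs
  exact (Nat.ModEq.dvd_iff ((Nat.mod_modEq n p).add_right h) dvd_rfl).symm

lemma Qs_nu (h : ℕ) {p : ℕ} (hp : p.Prime) : nuB (Qs h) p = 1 := by
  classical
  unfold nuB
  rw [card_eq_one]
  have hp0 := hp.pos
  have h1 : h % p < p := Nat.mod_lt _ hp0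
  refine ⟨(p - h % p) % p, ?_⟩
  ext r
  rw [mem_filter, mem_range, mem_singleton]
  unfold Qs
  have key : p ∣ (p - h % p) % p + h := by
    have h2 : (p - h % p) % p + h ≡ (p - h % p) + h % p [MOD p] :=
      Nat.ModEq.add (Nat.mod_modEq _ _) (Nat.mod_modEq _ _).symm
    rw [Nat.ModEq.dvd_iff h2 dvd_rfl, Nat.sub_add_cancel h1.le]
  constructor
  · rintro ⟨hr, h2⟩
    have h3 : r + h ≡ (p - h % p) % p + h [MOD p] :=
      ((Nat.modEq_zero_iff_dvd).2 h2).trans ((Nat.modEq_zero_iff_dvd).2 key).symm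
    have h4 : r ≡ (p - h % p) % p [MOD p] := Nat.ModEq.add_right_cancel' h h3
    have h5 := Nat.ModEq.eq_of_lt_of_lt h4 hr (Nat.mod_lt _ hp0)
    exact h5
  · rintro rfl
    exact ⟨Nat.mod_lt _ hp0, key⟩

lemma Qs_perB (h : ℕ) : PerB (Qs h) 2 :=
  ⟨fun p n => Qs_per h p n, fun p hp => by rw [Qs_nu h hp]; norm_num⟩

lemma Qd_le (h : ℕ) {p : ℕ} (hp : p.Prime) : nuB (Qd h) p ≤ 2 := by
  classical
  have h1 := Qs_nu 0 hp
  have h2 := Qs_nu h hp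
  unfold nuB at h1 h2 ⊢
  have hsub : (range p).filter (fun r => Qd h p r) ⊆ (range p).filter (fun r => Qs 0 p r) ∪ (range p).filter (fun r => Qs h p r) := by
    intro r hr
    rw [mem_union, mem_filter, mem_filter]
    rw [mem_filter] at hr
    rcases hr.2 with h3 | h3
    · exact Or.inl ⟨hr.1, h3⟩
    · exact Or.inr ⟨hr.1, h3⟩
  calc _ ≤ _ := card_le_card hsub
    _ ≤ _ := card_union_le _ _
    _ = 2 := by rw [h1, h2]

lemma Qd_perB (h : ℕ) : PerB (Qd h) 2 :=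
  ⟨fun p n => by unfold Qd; rw [← Qs_per, ← Qs_per], fun p hp => Qd_le h hp⟩

lemma Qd_ge_one (h : ℕ) {p : ℕ} (hp : p.Prime) : 1 ≤ nuB (Qd h) p := by
  classical
  have h1 := Qs_nu 0 hp
  unfold nuB at h1 ⊢
  rw [← h1]
  apply card_le_card
  intro r hr
  rw [mem_filter] at hr ⊢
  exact ⟨hr.1, Or.inl hr.2⟩

lemma Qd_ge_two {h : ℕ} {p : ℕ} (hp : p.Prime) (hh : ¬ p ∣ h) : 2 ≤ nuB (Qd h) p := by
  classical
  have h1 := Qs_nu 0 hp
  have h2 := Qs_nu h hp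
  unfold nuB at h1 h2 ⊢
  have hdis : Disjoint ((range p).filter (fun r => Qs 0 p r)) ((range p).filter (fun r => Qs h p r)) := by
    rw [disjoint_filter]
    intro r _ h3 h4
    unfold Qs at h3 h4
    rw [add_zero] at h3
    exact hh ((Nat.dvd_add_right h3).1 h4)
  have hsub : (range p).filter (fun r => Qs 0 p r) ∪ (range p).filter (fun r => Qs h p r) ⊆ (range p).filter (fun r => Qd h p r) := by
    intro r hr
    rw [mem_union, mem_filter, mem_filter] at hr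
    rw [mem_filter]
    rcases hr with h3 | h3
    · exact ⟨h3.1, Or.inl h3.2⟩
    · exact ⟨h3.1, Or.inr h3.2⟩
  calc 2 = _ := by rw [card_union_of_disjoint hdis, h1, h2]
    _ ≤ _ := card_le_card hsub

/-- the product of the local factors -/
lemma prod_le {w z h : ℕ} (hwz : w ≤ z) (hh : ∀ p ∈ pz w, p ∣ h) :
    ((Vz z)⁻¹) ^ 2 * ∏ p ∈ pz z, (1 - (nuB (Qd h) p : ℝ) / p) ≤ (Vz w)⁻¹ * fh w z h := by
  have e1 : ((Vz z)⁻¹) ^ 2 * ∏ p ∈ pz z, (1 - (nuB (Qd h) p : ℝ) / p) =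
      ∏ p ∈ pz z, (((1 - 1 / (p : ℝ))⁻¹) ^ 2 * (1 - (nuB (Qd h) p : ℝ) / p)) := by
    rw [prod_mul_distrib, prod_pow]
    congr 2
    unfold Vz
    rw [prod_inv_distrib]
  have hsplit : (pz z).filter (fun p => ¬ w < p) = pz w := by
    ext p
    rw [mem_filter, mem_pz, mem_pz]
    constructor
    · rintro ⟨⟨h1, h2⟩, h3⟩
      exact ⟨by omega, h2⟩
    · rintro ⟨h1, h2⟩
      exact ⟨⟨by omega, h2⟩, by omega⟩
  have hnn : ∀ p ∈ pz z, 0 ≤ ((1 - 1 / (p : ℝ))⁻¹) ^ 2 * (1 - (nuB (Qd h) p : ℝ) / p) := by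
    intro p hp
    have hpp := (mem_pz.1 hp).2
    have h2 : (2 : ℝ) ≤ p := by exact_mod_cast hpp.two_le
    have h3 : (nuB (Qd h) p : ℝ) / p ≤ 1 := by
      rw [div_le_one (by linarith)]
      have : (nuB (Qd h) p : ℝ) ≤ 2 := by exact_mod_cast Qd_le h hpp
      linarith
    have h4 : 0 ≤ 1 - (nuB (Qd h) p : ℝ) / p := by linarith
    positivity
  have hdiv : ∀ p : ℕ, p.Prime → ((1 - 1 / (p : ℝ))⁻¹) ^ 2 * (1 - (nuB (Qd h) p : ℝ) / p) ≤ (1 - 1 / (p : ℝ))⁻¹ := by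
    intro p hpp
    obtain ⟨f1, f2⟩ := fac_pos hpp
    have hp0 : (0 : ℝ) < p := by exact_mod_cast hpp.pos
    have h3 : 1 / (p : ℝ) ≤ (nuB (Qd h) p : ℝ) / p := by
      apply div_le_div_of_nonneg_right _ hp0.le
      exact_mod_cast Qd_ge_one h hpp
    calc ((1 - 1 / (p : ℝ))⁻¹) ^ 2 * (1 - (nuB (Qd h) p : ℝ) / p) ≤ ((1 - 1 / (p : ℝ))⁻¹) ^ 2 * (1 - 1 / (p : ℝ)) := by
          apply mul_le_mul_of_nonneg_left (by linarith) (by positivity)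
      _ = (1 - 1 / (p : ℝ))⁻¹ := by field_simp
  rw [e1, ← prod_filter_mul_prod_filter_not (pz z) (fun p => w < p), hsplit, mul_comm]
  apply mul_le_mul
  · have e2 : (Vz w)⁻¹ = ∏ p ∈ pz w, (1 - 1 / (p : ℝ))⁻¹ := by
      unfold Vz
      rw [prod_inv_distrib]
    rw [e2]
    apply prod_le_prod
    · intro p hp
      apply hnn
      rw [mem_pz] at hp ⊢
      exact ⟨by omega, hp.2⟩
    · intro p hp
      exact hdiv p (mem_pz.1 hp).2
  · unfold fh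
    have e3 : (pz z).filter (fun p => w < p) = pw w z := rfl
    rw [e3, ← prod_filter_mul_prod_filter_not (pw w z) (fun p : ℕ => (p : ℤ) ∣ (h : ℤ))]
    have h5 : ∏ p ∈ (pw w z).filter (fun p : ℕ => ¬ (p : ℤ) ∣ (h : ℤ)), (((1 - 1 / (p : ℝ))⁻¹) ^ 2 * (1 - (nuB (Qd h) p : ℝ) / p)) ≤ 1 := by
      apply prod_le_one
      · intro p hp
        apply hnn
        exact (mem_filter.1 (mem_filter.1 hp).1).1
      · intro p hp
        rw [mem_filter, mem_pw] at hp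
        have hpp := hp.1.2.1
        obtain ⟨f1, f2⟩ := fac_pos hpp
        have hp0 : (0 : ℝ) < p := by exact_mod_cast hpp.pos
        have h6 : ¬ p ∣ h := fun h7 => hp.2 (Int.natCast_dvd_natCast.2 h7)
        have h3 : 2 / (p : ℝ) ≤ (nuB (Qd h) p : ℝ) / p := by
          apply div_le_div_of_nonneg_right _ hp0.le
          exact_mod_cast Qd_ge_two hpp h6
        have h8 : 1 - (nuB (Qd h) p : ℝ) / p ≤ (1 - 1 / (p : ℝ)) ^ 2 := by
          have : (1 - 1 / (p : ℝ)) ^ 2 = 1 - 2 / p + (1 / (p : ℝ)) ^ 2 := by ring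
          rw [this]
          have := sq_nonneg (1 / (p : ℝ))
          linarith
        calc ((1 - 1 / (p : ℝ))⁻¹) ^ 2 * (1 - (nuB (Qd h) p : ℝ) / p) ≤ ((1 - 1 / (p : ℝ))⁻¹) ^ 2 * (1 - 1 / (p : ℝ)) ^ 2 :=
              mul_le_mul_of_nonneg_left h8 (by positivity)
          _ = 1 := by rw [← mul_pow, inv_mul_cancel₀ f1.ne', one_pow]
    have h6 : ∏ p ∈ (pw w z).filter (fun p : ℕ => (p : ℤ) ∣ (h : ℤ)), (((1 - 1 / (p : ℝ))⁻¹) ^ 2 * (1 - (nuB (Qd h) p : ℝ) / p)) ≤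
        ∏ p ∈ (pw w z).filter (fun p : ℕ => (p : ℤ) ∣ (h : ℤ)), (1 - 1 / (p : ℝ))⁻¹ := by
      apply prod_le_prod
      · intro p hp
        apply hnn
        exact (mem_filter.1 (mem_filter.1 hp).1).1
      · intro p hp
        rw [mem_filter, mem_pw] at hp
        exact hdiv p hp.1.2.1
    have h7 : 0 ≤ ∏ p ∈ (pw w z).filter (fun p : ℕ => (p : ℤ) ∣ (h : ℤ)), (1 - 1 / (p : ℝ))⁻¹ := by
      apply prod_nonneg
      intro p hp
      rw [mem_filter, mem_pw] at hp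
      exact inv_nonneg.2 (fac_pos hp.1.2.1).1.le
    calc _ ≤ (∏ p ∈ (pw w z).filter (fun p : ℕ => (p : ℤ) ∣ (h : ℤ)), (1 - 1 / (p : ℝ))⁻¹) * 1 := by
          apply mul_le_mul h6 h5 _ h7
          apply prod_nonneg
          intro p hp
          apply hnn
          exact (mem_filter.1 (mem_filter.1 hp).1).1
      _ = _ := mul_one _
  · apply prod_nonneg
    intro p hp
    apply hnn
    exact (mem_filter.1 hp).1
  · exact inv_nonneg.2 (Vz_pos w).le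

open Classical in
lemma lam_sum {z K : ℕ} (h : ℕ) : ∑ k ∈ Icc 1 K, lamz z (k + h) =
    (Vz z)⁻¹ * (((Icc 1 K).filter (fun k => ∀ p ∈ pz z, ¬ Qs h p k)).card : ℝ) := by
  unfold lamz Qs
  rw [← sum_filter, sum_const, nsmul_eq_mul, mul_comm]
  congr!

lemma rough_w {w z k : ℕ} (hwz : w ≤ z) (h : ∀ p ∈ pz z, ¬ p ∣ k) : ∀ p ∈ pz w, ¬ p ∣ k := by
  intro p hp
  apply h
  rw [mem_pz] at hp ⊢
  exact ⟨by omega, hp.2⟩

/-- one pair -/
theorem corr_pair (E : ℕ) : ∃ K0 : ℕ, ∀ K : ℕ, K0 ≤ K → ∀ z w : ℕ, 1 ≤ w → w ≤ z → (z : ℝ) ≤ Real.log K ^ E →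
    ∀ h : ℕ, (∀ p ∈ pz w, p ∣ h) →
    ∑ k ∈ Icc 1 K, d2 w z k * d2 w z (k + h) ≤ K * ((Vz w)⁻¹ * (fh w z h - 1)) + K / Real.log K := by
  classical
  obtain ⟨K1, h1⟩ := sys_count 2 E 4 (by norm_num)
  obtain ⟨K2, h2⟩ := Vz_inv_small E
  obtain ⟨K3, h3⟩ := ev_L' 4
  refine ⟨K1 + K2 + K3 + 1, fun K hK z w hw hwz hzE h hh => ?_⟩
  have b1 := h1 K (by omega) z (by omega) hzE
  have b1w := h1 K (by omega) w hw (le_trans (by exact_mod_cast hwz) hzE)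
  have b2 := h2 K (by omega) z (by omega) hzE
  have b3 := h3 K (by omega)
  obtain ⟨L, hL⟩ : ∃ L, L = Real.log (K : ℝ) := ⟨_, rfl⟩
  rw [← hL] at b1 b1w b2 b3 ⊢
  have hL0 : 0 < L := by linarith
  have hK0 : (0 : ℝ) < K := by exact_mod_cast (by omega : 0 < K)
  have hVz := Vz_pos z
  have hVw := Vz_pos w
  have hVi : 0 < (Vz z)⁻¹ := inv_pos.2 hVz
  have hVwi : 0 < (Vz w)⁻¹ := inv_pos.2 hVw
  have hVwz : (Vz w)⁻¹ ≤ (Vz z)⁻¹ := by
    have e1 : (Vz z)⁻¹ = ∏ p ∈ pz z, (1 - 1 / (p : ℝ))⁻¹ := by unfold Vz; rw [prod_inv_distrib]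
    have e2 : (Vz w)⁻¹ = ∏ p ∈ pz w, (1 - 1 / (p : ℝ))⁻¹ := by unfold Vz; rw [prod_inv_distrib]
    have hsplit : (pz z).filter (fun p => ¬ w < p) = pz w := by
      ext p
      rw [mem_filter, mem_pz, mem_pz]
      constructor
      · rintro ⟨⟨h1, h2⟩, h3⟩
        exact ⟨by omega, h2⟩
      · rintro ⟨h1, h2⟩
        exact ⟨⟨by omega, h2⟩, by omega⟩
    rw [e1, e2, ← prod_filter_mul_prod_filter_not (pz z) (fun p => w < p), hsplit]
    apply le_mul_of_one_le_left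
    · exact prod_nonneg fun p hp => inv_nonneg.2 (fac_pos (mem_pz.1 hp).2).1.le
    · apply Finset.one_le_prod
      intro p hp
      exact one_le_fac (mem_pz.1 (mem_filter.1 hp).1).2
  have c1 := abs_le.1 (b1 (Qs 0) (Qs_perB 0))
  have c2 := abs_le.1 (b1 (Qs h) (Qs_perB h))
  have c3 := abs_le.1 (b1 (Qd h) (Qd_perB h))
  have c4 := abs_le.1 (b1w (Qs 0) (Qs_perB 0))
  have hV : ∀ (y h : ℕ), ∏ p ∈ pz y, (1 - (nuB (Qs h) p : ℝ) / p) = Vz y := by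
    intro y h
    unfold Vz
    refine prod_congr rfl fun p hp => ?_
    rw [Qs_nu h (mem_pz.1 hp).2, Nat.cast_one]
  rw [hV] at c1 c2 c4
  set e : ℝ := K / L ^ 4 with he
  have he0 : 0 ≤ e := by positivity
  have hsum : ∑ k ∈ Icc 1 K, d2 w z k * d2 w z (k + h) =
      ((Vz z)⁻¹) ^ 2 * (((Icc 1 K).filter (fun k => ∀ p ∈ pz z, ¬ Qd h p k)).card : ℝ) -
      (Vz w)⁻¹ * ∑ k ∈ Icc 1 K, lamz z (k + 0) - (Vz w)⁻¹ * ∑ k ∈ Icc 1 K, lamz z (k + h) +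
      (Vz w)⁻¹ * ∑ k ∈ Icc 1 K, lamz w (k + 0) := by
    have t1 : ((Vz z)⁻¹) ^ 2 * (((Icc 1 K).filter (fun k => ∀ p ∈ pz z, ¬ Qd h p k)).card : ℝ) =
        ∑ k ∈ Icc 1 K, (if ∀ p ∈ pz z, ¬ Qd h p k then ((Vz z)⁻¹) ^ 2 else 0) := by
      rw [← sum_filter, sum_const, nsmul_eq_mul, mul_comm]
    rw [t1, mul_sum, mul_sum, mul_sum, ← sum_sub_distrib, ← sum_sub_distrib, ← sum_add_distrib]
    refine sum_congr rfl fun k _ => ?_
    have hwk : (∀ p ∈ pz w, ¬ p ∣ k + h) ↔ (∀ p ∈ pz w, ¬ p ∣ k) := by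
      apply forall₂_congr
      intro p hp
      rw [Nat.dvd_add_left (hh p hp)]
    have f1 : (if ∀ p ∈ pz z, ¬ Qd h p k then ((Vz z)⁻¹) ^ 2 else 0) = lamz z k * lamz z (k + h) := by
      unfold lamz Qd Qs
      by_cases g1 : ∀ p ∈ pz z, ¬ p ∣ k
      · by_cases g2 : ∀ p ∈ pz z, ¬ p ∣ k + h
        · rw [if_pos g1, if_pos g2, if_pos]
          · ring
          · intro p hp
            rw [add_zero, not_or]
            exact ⟨g1 p hp, g2 p hp⟩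
        · rw [if_neg g2, if_neg, mul_zero]
          intro g3
          exact g2 fun p hp => (not_or.1 (g3 p hp)).2
      · rw [if_neg g1, if_neg, zero_mul]
        intro g3
        apply g1
        intro p hp
        have := (not_or.1 (g3 p hp)).1
        rwa [add_zero] at this
    have f2 : lamz z k * lamz w (k + h) = (Vz w)⁻¹ * lamz z (k + 0) := by
      unfold lamz
      rw [add_zero]
      by_cases g1 : ∀ p ∈ pz z, ¬ p ∣ k
      · rw [if_pos g1, if_pos (hwk.2 (rough_w hwz g1)), mul_comm]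
      · rw [if_neg g1]
        ring
    have f3 : lamz w k * lamz z (k + h) = (Vz w)⁻¹ * lamz z (k + h) := by
      unfold lamz
      by_cases g1 : ∀ p ∈ pz z, ¬ p ∣ k + h
      · rw [if_pos g1, if_pos (hwk.1 (rough_w hwz g1))]
      · rw [if_neg g1]
        ring
    have f4 : lamz w k * lamz w (k + h) = (Vz w)⁻¹ * lamz w (k + 0) := by
      unfold lamz
      rw [add_zero]
      by_cases g1 : ∀ p ∈ pz w, ¬ p ∣ k
      · rw [if_pos g1, if_pos (hwk.2 g1)]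
      · rw [if_neg g1]
        ring
    rw [f1, ← f2, ← f3, ← f4]
    unfold d2
    ring
  rw [hsum, lam_sum, lam_sum, lam_sum]
  have k1 : (Vz z)⁻¹ * (K * Vz z - e) ≤ (Vz z)⁻¹ * (((Icc 1 K).filter (fun k => ∀ p ∈ pz z, ¬ Qs 0 p k)).card : ℝ) :=
    mul_le_mul_of_nonneg_left (by linarith [c1.1]) hVi.le
  have k2 : (Vz z)⁻¹ * (K * Vz z - e) ≤ (Vz z)⁻¹ * (((Icc 1 K).filter (fun k => ∀ p ∈ pz z, ¬ Qs h p k)).card : ℝ) :=
    mul_le_mul_of_nonneg_left (by linarith [c2.1]) hVi.le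
  have k4 : (Vz w)⁻¹ * (((Icc 1 K).filter (fun k => ∀ p ∈ pz w, ¬ Qs 0 p k)).card : ℝ) ≤ (Vz w)⁻¹ * (K * Vz w + e) :=
    mul_le_mul_of_nonneg_left (by linarith [c4.2]) hVwi.le
  have k3 : ((Vz z)⁻¹) ^ 2 * (((Icc 1 K).filter (fun k => ∀ p ∈ pz z, ¬ Qd h p k)).card : ℝ) ≤
      ((Vz z)⁻¹) ^ 2 * (K * ∏ p ∈ pz z, (1 - (nuB (Qd h) p : ℝ) / p) + e) :=
    mul_le_mul_of_nonneg_left (by linarith [c3.2]) (by positivity)
  have k5 := prod_le hwz hh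
  have e1 : (Vz z)⁻¹ * (K * Vz z - e) = K - (Vz z)⁻¹ * e := by field_simp
  have e4 : (Vz w)⁻¹ * (K * Vz w + e) = K + (Vz w)⁻¹ * e := by field_simp
  rw [e1] at k1 k2
  rw [e4] at k4
  have m1 := mul_le_mul_of_nonneg_left k1 hVwi.le
  have m2 := mul_le_mul_of_nonneg_left k2 hVwi.le
  have m4 := mul_le_mul_of_nonneg_left k4 hVwi.le
  have m5 : ((Vz z)⁻¹) ^ 2 * (K * ∏ p ∈ pz z, (1 - (nuB (Qd h) p : ℝ) / p) + e) ≤
      K * ((Vz w)⁻¹ * fh w z h) + ((Vz z)⁻¹) ^ 2 * e := by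
    have := mul_le_mul_of_nonneg_left k5 hK0.le
    calc ((Vz z)⁻¹) ^ 2 * (K * ∏ p ∈ pz z, (1 - (nuB (Qd h) p : ℝ) / p) + e) =
          K * (((Vz z)⁻¹) ^ 2 * ∏ p ∈ pz z, (1 - (nuB (Qd h) p : ℝ) / p)) + ((Vz z)⁻¹) ^ 2 * e := by ring
      _ ≤ _ := by linarith
  have n1 : (Vz w)⁻¹ * ((Vz z)⁻¹ * e) ≤ ((Vz z)⁻¹) ^ 2 * e := by
    have := mul_le_mul_of_nonneg_right hVwz (mul_nonneg hVi.le he0)
    calc _ ≤ (Vz z)⁻¹ * ((Vz z)⁻¹ * e) := this
      _ = _ := by ring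
  have n2 : (Vz w)⁻¹ * ((Vz w)⁻¹ * e) ≤ ((Vz z)⁻¹) ^ 2 * e := by
    have : (Vz w)⁻¹ * (Vz w)⁻¹ ≤ (Vz z)⁻¹ * (Vz z)⁻¹ := mul_le_mul hVwz hVwz hVwi.le hVi.le
    have := mul_le_mul_of_nonneg_right this he0
    calc (Vz w)⁻¹ * ((Vz w)⁻¹ * e) = (Vz w)⁻¹ * (Vz w)⁻¹ * e := by ring
      _ ≤ (Vz z)⁻¹ * (Vz z)⁻¹ * e := this
      _ = _ := by ring
  have n3 : 4 * (((Vz z)⁻¹) ^ 2 * e) ≤ K / L := by
    have h5 : ((Vz z)⁻¹) ^ 2 ≤ L ^ 2 := pow_le_pow_left₀ hVi.le b2 2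
    calc 4 * (((Vz z)⁻¹) ^ 2 * e) ≤ 4 * (L ^ 2 * e) := by gcongr
      _ = 4 * (K / L ^ 2) := by rw [he]; field_simp
      _ ≤ K / L := by
          rw [mul_div_assoc', div_le_div_iff₀ (by positivity) hL0]
          have : 4 * L ≤ L ^ 2 := by nlinarith
          calc 4 * (K : ℝ) * L = K * (4 * L) := by ring
            _ ≤ K * L ^ 2 := by gcongr
  nlinarith

end Pool.Agent.V8H21.SQ
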