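import Pool.Agent.V8H21.SQ.L1
import Pool.Agent.H373R2.T7.Minor

set_option autoImplicit false

/-! Almost all integers as sums of a prime and a weighted square. -/

namespace Pool.Agent.V8H21.SQ

open Finset
open Pool.Agent.H373R2.T7 (lamz Vz pz Vz_pos Vz_inv_small lamI lamzI mem_pz lamz_nonneg ev_log' ev_L' Vz_le_one)

lemma sum_Icc_split {M : Type*} [AddCommMonoid M] (f : ℕ → M) {a b : ℕ} (h : a ≤ b) :
    ∑ m ∈ Icc 1 b, f m = ∑ m ∈ Icc 1 a, f m + ∑ m ∈ Ioc a b, f m := by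
  have e3 : ∀ y : ℕ, Icc 1 y = Ioc 0 y := by
    intro y
    ext b
    simp only [mem_Icc, mem_Ioc]
    omega
  rw [e3, e3, sum_Ioc_consecutive _ (Nat.zero_le _) h]

/-- the weighted sum of `log p` minus the model -/
noncomputable def err (w : ℕ → ℂ) (z y n : ℕ) : ℂ :=
  ∑ m ∈ Icc 1 y, w m * ((thp (n - m ^ 2) - lamz z (n - m ^ 2) : ℝ) : ℂ)

lemma err_eq {w : ℕ → ℂ} {z : ℕ} (hz : 2 ≤ z) (y n : ℕ) :
    err w z y n = dif w z y n - ∑ m ∈ Icc 1 y, w m * ((ppw (n - m ^ 2) : ℝ) : ℂ) := by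
  unfold err dif
  rw [← sum_sub_distrib]
  refine sum_congr rfl fun m _ => ?_
  rw [lamI_sub, lamzI_sub hz, vm_split]
  push_cast
  ring

lemma lamz_zero {z : ℕ} (hz : 2 ≤ z) : lamz z 0 = 0 := by
  unfold lamz
  rw [if_neg]
  intro h3
  exact h3 2 (mem_pz.2 ⟨hz, Nat.prime_two⟩) (dvd_zero 2)

lemma lamz_le' {z : ℕ} (n : ℕ) : lamz z n ≤ (Vz z)⁻¹ := by
  unfold lamz
  split_ifs
  · exact le_rfl
  · exact (inv_pos.2 (Vz_pos z)).le

/-- beyond the square root nothing changes -/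
lemma err_min {w : ℕ → ℂ} {z : ℕ} (hz : 2 ≤ z) {y x n : ℕ} (hn : n ≤ x ^ 2 + 2 * x) :
    err w z y n = err w z (min y x) n := by
  unfold err
  rw [sum_Icc_split _ (min_le_left y x)]
  rw [add_eq_left]
  apply sum_eq_zero
  intro m hm
  rw [mem_Ioc] at hm
  have h1 : x < m := by
    rcases le_total y x with h | h
    · rw [min_eq_left h] at hm; omega
    · rw [min_eq_right h] at hm; omega
  have h2 : n ≤ m ^ 2 := by nlinarith
  rw [Nat.sub_eq_zero_of_le h2, thp_zero, lamz_zero hz]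
  simp

lemma err_step {w : ℕ → ℂ} (hw : ∀ m, ‖w m‖ ≤ 1) {z N n y s : ℕ} (hn : n ≤ N) (hs : 1 ≤ s) (hV : (Vz z)⁻¹ ≤ Real.log N) :
    ‖err w z y n‖ ≤ ‖err w z (y / s * s) n‖ + s * Real.log N := by
  have h1 : y / s * s ≤ y := Nat.div_mul_le_self y s
  have h2 : y ≤ y / s * s + s := by
    have := Nat.div_add_mod y s
    have h3 := Nat.mod_lt y hs
    nlinarith
  unfold err
  rw [sum_Icc_split _ h1]
  refine (norm_add_le _ _).trans (add_le_add le_rfl ?_)
  have hlN : 0 ≤ Real.log N := Real.log_natCast_nonneg _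
  have hcard : ((Ioc (y / s * s) y).card : ℝ) ≤ s := by
    rw [Nat.card_Ioc]
    exact_mod_cast (by omega : y - y / s * s ≤ s)
  calc ‖∑ m ∈ Ioc (y / s * s) y, w m * ((thp (n - m ^ 2) - lamz z (n - m ^ 2) : ℝ) : ℂ)‖ ≤
        ∑ m ∈ Ioc (y / s * s) y, ‖w m * ((thp (n - m ^ 2) - lamz z (n - m ^ 2) : ℝ) : ℂ)‖ := norm_sum_le _ _
    _ ≤ ∑ _m ∈ Ioc (y / s * s) y, Real.log N := by
        refine sum_le_sum fun m _ => ?_
        rw [norm_mul]
        have h3 : ‖((thp (n - m ^ 2) - lamz z (n - m ^ 2) : ℝ) : ℂ)‖ ≤ Real.log N := by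
          rw [Complex.norm_real, Real.norm_eq_abs, abs_le]
          have a1 := thp_nn (n - m ^ 2)
          have a2 : thp (n - m ^ 2) ≤ Real.log N := thp_le (by omega)
          have a3 := lamz_nonneg z (n - m ^ 2)
          have a4 := (lamz_le' (z := z) (n - m ^ 2)).trans hV
          constructor <;> linarith
        calc ‖w m‖ * ‖((thp (n - m ^ 2) - lamz z (n - m ^ 2) : ℝ) : ℂ)‖ ≤ 1 * Real.log N := by
              apply mul_le_mul (hw m) h3 (norm_nonneg _) zero_le_one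
          _ = _ := one_mul _
    _ = ((Ioc (y / s * s) y).card : ℝ) * Real.log N := by rw [sum_const, nsmul_eq_mul]
    _ ≤ s * Real.log N := mul_le_mul_of_nonneg_right hcard hlN

/-- Markov -/
lemma markov {A : ℕ} (f : ℕ → ℝ) (hf : ∀ n, 0 ≤ f n) {R t : ℝ} (ht : 0 < t) (h : ∑ n ∈ Icc 1 A, f n ≤ R) :
    (((Icc 1 A).filter (fun n => t < f n)).card : ℝ) ≤ R / t := by
  rw [le_div_iff₀ ht, ← nsmul_eq_mul, ← sum_const]
  calc ∑ _n ∈ (Icc 1 A).filter (fun n => t < f n), t ≤ ∑ n ∈ (Icc 1 A).filter (fun n => t < f n), f n :=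
        sum_le_sum fun n hn => (mem_filter.1 hn).2.le
    _ ≤ ∑ n ∈ Icc 1 A, f n := sum_le_sum_of_subset_of_nonneg (filter_subset _ _) fun n _ _ => hf n
    _ ≤ R := h

open Classical in
/-- the exceptional integers -/
theorem main1 (C U : ℕ) : ∃ B : ℕ, ∀ E : ℕ, ∃ N₀ : ℕ, ∀ N : ℕ, N₀ ≤ N →
    ∀ z : ℕ, Real.log N ^ B ≤ z → (z : ℝ) ≤ Real.log N ^ E →
    2 ≤ z ∧ (Vz z)⁻¹ ≤ Real.log N ∧ 3 ≤ N ∧ ∀ w : ℕ → ℂ, (∀ m, ‖w m‖ ≤ 1) →
      (((Icc 1 N).filter (fun n => ¬ ∀ y : ℕ, ‖err w z y n‖ ≤ Real.sqrt N / Real.log N ^ C)).card : ℝ) ≤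
        N / Real.log N ^ U := by
  obtain ⟨B0, h0⟩ := l1_w 4 (U + 2 * C + 5) (by norm_num)
  refine ⟨B0 + 1, fun E => ?_⟩
  obtain ⟨N1, h1⟩ := h0 E
  obtain ⟨N2, h2⟩ := Vz_inv_small E
  obtain ⟨N3, h3⟩ := ev_log' (C + 3) 20
  obtain ⟨N4, h4⟩ := ev_log' (C + U + 2) 1
  obtain ⟨N5, h5⟩ := ev_L' 100
  refine ⟨N1 + N2 + N3 + N4 + N5 + 3, fun N hN z hz1 hz2 => ?_⟩
  have b1 := h1 N (by omega)
  have b2 := h2 N (by omega)
  have b3 := h3 N (by omega)
  have b4 := h4 N (by omega)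
  have b5 := h5 N (by omega)
  have hN3 : 3 ≤ N := by omega
  obtain ⟨L, hL⟩ : ∃ L, L = Real.log (N : ℝ) := ⟨_, rfl⟩
  rw [← hL] at b1 b2 b3 b4 b5 hz1 hz2 ⊢
  have hL0 : 0 < L := by linarith
  have hL1 : 1 ≤ L := by linarith
  have hNr : (3 : ℝ) ≤ N := by exact_mod_cast hN3
  have hN0 : (0 : ℝ) < N := by linarith
  have hz2' : (2 : ℝ) ≤ z := by
    calc (2 : ℝ) ≤ L := by linarith
      _ = L ^ 1 := (pow_one L).symm
      _ ≤ L ^ (B0 + 1) := pow_le_pow_right₀ hL1 (by omega)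
      _ ≤ z := hz1
  have hzn : 2 ≤ z := by exact_mod_cast hz2'
  have hzB : L ^ B0 ≤ z := (pow_le_pow_right₀ hL1 (by omega)).trans hz1
  have hV := b2 z (by omega) hz2
  refine ⟨hzn, hV, hN3, fun w hw => ?_⟩
  obtain ⟨R, hR⟩ : ∃ R, R = Real.sqrt N := ⟨_, rfl⟩
  rw [← hR] at b3 b4 ⊢
  have hR0 : 0 < R := by rw [hR]; exact Real.sqrt_pos.2 hN0
  have hRR : R * R = N := by rw [hR]; exact Real.mul_self_sqrt hN0.le
  set x := Nat.sqrt N with hx
  have hx1 : x * x ≤ N := Nat.sqrt_le N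
  have hx2 : N ≤ x * x + x + x := Nat.sqrt_le_add N
  have hxpos : 1 ≤ x := by
    rw [hx]
    exact Nat.sqrt_pos.2 (by omega)
  have hxR : (x : ℝ) ≤ R := by
    rw [hR]
    apply Real.le_sqrt_of_sq_le
    rw [pow_two]
    exact_mod_cast hx1
  -- the grid
  obtain ⟨P, hP⟩ : ∃ P : ℝ, P = L ^ (C + 2) := ⟨_, rfl⟩
  have hP1 : 1 ≤ P := by rw [hP]; exact one_le_pow₀ hL1
  set T := ⌊P⌋₊ with hT
  have hT1 : 1 ≤ T := by
    rw [hT]
    exact Nat.one_le_iff_ne_zero.2 (by
      rw [Ne, Nat.floor_eq_zero]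
      linarith)
  have hTP : (T : ℝ) ≤ P := Nat.floor_le (by linarith)
  have hTP2 : P ≤ 2 * T := by
    have h6 := Nat.lt_floor_add_one P
    rw [← hT] at h6
    have : (1 : ℝ) ≤ T := by exact_mod_cast hT1
    linarith
  set s := x / T + 1 with hs
  have hs1 : 1 ≤ s := by rw [hs]; exact Nat.le_add_left 1 _
  have hsr : (s : ℝ) ≤ 2 * R / P + 1 := by
    have h6 : ((x / T : ℕ) : ℝ) ≤ x / T := Nat.cast_div_le
    have hT0 : (0 : ℝ) < T := by exact_mod_cast hT1
    have h7 : (x : ℝ) / T ≤ 2 * R / P := by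
      rw [div_le_div_iff₀ hT0 (by linarith)]
      calc (x : ℝ) * P ≤ R * (2 * T) := by
            apply mul_le_mul hxR hTP2 (by linarith) hR0.le
        _ = _ := by ring
    rw [hs]
    push_cast
    linarith
  have hsL : (s : ℝ) * L ≤ R / (4 * L ^ C) := by
    have hLC : 0 < L ^ C := by positivity
    have e : L ^ (C + 3) = L ^ C * L ^ 3 := by ring
    have e2 : P = L ^ C * L ^ 2 := by rw [hP]; ring
    rw [e] at b3
    have h6 : L ≤ R / (20 * (L ^ C)) := by
      rw [le_div_iff₀ (by positivity)]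
      have : L ^ 1 ≤ L ^ 3 := pow_le_pow_right₀ hL1 (by norm_num)
      rw [pow_one] at this
      calc L * (20 * L ^ C) = 20 * (L ^ C * L) := by ring
        _ ≤ 20 * (L ^ C * L ^ 3) := by gcongr
        _ ≤ R := b3
    have h7 : 2 * R / P * L ≤ R / (10 * L ^ C) := by
      rw [e2, div_mul_eq_mul_div, div_le_div_iff₀ (by positivity) (by positivity)]
      have : 20 * L ≤ L ^ 2 := by nlinarith
      calc 2 * R * L * (10 * L ^ C) = (R * L ^ C) * (20 * L) := by ring
        _ ≤ (R * L ^ C) * L ^ 2 := by gcongr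
        _ = _ := by ring
    calc (s : ℝ) * L ≤ (2 * R / P + 1) * L := by gcongr
      _ = 2 * R / P * L + L := by ring
      _ ≤ R / (10 * L ^ C) + R / (20 * L ^ C) := add_le_add h7 h6
      _ ≤ R / (4 * L ^ C) := by
          have e3 : R / (10 * L ^ C) + R / (20 * L ^ C) = (3 / 20) * (R / L ^ C) := by field_simp; norm_num
          have e4 : R / (4 * L ^ C) = (1 / 4) * (R / L ^ C) := by field_simp
          rw [e3, e4]
          have : 0 < R / L ^ C := by positivity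
          linarith
  -- the bad sets
  set t : ℝ := R / (4 * L ^ C) with ht
  have ht0 : 0 < t := by rw [ht]; positivity
  set Bad1 : Finset ℕ := (range (T + 1)).biUnion (fun i => (Icc 1 N).filter (fun n => i * s ≤ x ∧ t < ‖dif w z (i * s) n‖)) with hB1
  set Bad2 : Finset ℕ := (Icc 1 N).filter (fun n => t < ∑ m ∈ Icc 1 x, ppw (n - m ^ 2)) with hB2
  have hsub : (Icc 1 N).filter (fun n => ¬ ∀ y : ℕ, ‖err w z y n‖ ≤ R / L ^ C) ⊆ Bad1 ∪ Bad2 := by
    intro n hn
    rw [mem_filter] at hn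
    obtain ⟨hnN, hbad⟩ := hn
    rw [mem_union]
    by_contra hcon
    push Not at hcon
    obtain ⟨c1, c2⟩ := hcon
    apply hbad
    intro y
    have hn2 : n ≤ x ^ 2 + 2 * x := by
      rw [mem_Icc] at hnN
      nlinarith
    rw [err_min hzn hn2]
    set y0 := min y x with hy0
    have hy0x : y0 ≤ x := min_le_right _ _
    have hst := err_step hw (y := y0) (mem_Icc.1 hnN).2 hs1 (by rw [← hL]; exact hV)
    rw [← hL] at hst
    have hi : y0 / s ∈ range (T + 1) := by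
      rw [mem_range]
      have h6 : x / T < s := by omega
      have h7 : x < s * T := by
        rwa [Nat.div_lt_iff_lt_mul (by omega)] at h6
      have h8 : y0 / s < T := by
        rw [Nat.div_lt_iff_lt_mul (by omega)]
        nlinarith
      omega
    have hle : y0 / s * s ≤ x := (Nat.div_mul_le_self _ _).trans hy0x
    have d1 : ‖dif w z (y0 / s * s) n‖ ≤ t := by
      by_contra h6
      push Not at h6
      apply c1
      rw [hB1, mem_biUnion]
      exact ⟨y0 / s, hi, mem_filter.2 ⟨hnN, hle, h6⟩⟩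
    have d2 : ∑ m ∈ Icc 1 x, ppw (n - m ^ 2) ≤ t := by
      by_contra h6
      push Not at h6
      exact c2 (mem_filter.2 ⟨hnN, h6⟩)
    have d3 : ‖∑ m ∈ Icc 1 (y0 / s * s), w m * ((ppw (n - m ^ 2) : ℝ) : ℂ)‖ ≤ t := by
      refine le_trans ?_ d2
      calc ‖∑ m ∈ Icc 1 (y0 / s * s), w m * ((ppw (n - m ^ 2) : ℝ) : ℂ)‖ ≤
            ∑ m ∈ Icc 1 (y0 / s * s), ‖w m * ((ppw (n - m ^ 2) : ℝ) : ℂ)‖ := norm_sum_le _ _
        _ ≤ ∑ m ∈ Icc 1 (y0 / s * s), ppw (n - m ^ 2) := by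
            refine sum_le_sum fun m _ => ?_
            rw [norm_mul, Complex.norm_real, Real.norm_of_nonneg (ppw_nn _)]
            calc ‖w m‖ * ppw (n - m ^ 2) ≤ 1 * ppw (n - m ^ 2) := mul_le_mul_of_nonneg_right (hw m) (ppw_nn _)
              _ = _ := one_mul _
        _ ≤ ∑ m ∈ Icc 1 x, ppw (n - m ^ 2) :=
            sum_le_sum_of_subset_of_nonneg (Icc_subset_Icc le_rfl hle) fun m _ _ => ppw_nn _
    have d4 : ‖err w z (y0 / s * s) n‖ ≤ t + t := by
      rw [err_eq hzn]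
      exact (norm_sub_le _ _).trans (add_le_add d1 d3)
    have e5 : R / L ^ C = 4 * t := by rw [ht]; field_simp
    rw [e5]
    linarith
  have hcs : (((Icc 1 N).filter (fun n => ¬ ∀ y : ℕ, ‖err w z y n‖ ≤ R / L ^ C)).card : ℝ) ≤ ((Bad1 ∪ Bad2).card : ℝ) := by
    exact_mod_cast card_le_card hsub
  refine hcs.trans ?_
  have hc1 : (Bad1.card : ℝ) ≤ (T + 1) * ((N * x / L ^ (U + 2 * C + 5)) / t) := by
    calc (Bad1.card : ℝ) ≤ ∑ i ∈ range (T + 1), (((Icc 1 N).filter (fun n => i * s ≤ x ∧ t < ‖dif w z (i * s) n‖)).card : ℝ) := by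
          exact_mod_cast card_biUnion_le
      _ ≤ ∑ _i ∈ range (T + 1), ((N * x / L ^ (U + 2 * C + 5)) / t) := by
          refine sum_le_sum fun i _ => ?_
          by_cases hi : i * s ≤ x
          · have h6 := b1 z hzB hz2 x (by nlinarith) (by nlinarith) N (by omega) w hw (i * s) hi
            have h7 := markov (fun n => ‖dif w z (i * s) n‖) (fun n => norm_nonneg _) ht0 h6
            refine le_trans ?_ h7
            exact_mod_cast card_le_card (by
              intro n hn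
              rw [mem_filter] at hn ⊢
              exact ⟨hn.1, hn.2.2⟩)
          · have : ((Icc 1 N).filter (fun n => i * s ≤ x ∧ t < ‖dif w z (i * s) n‖)) = ∅ := by
              rw [filter_eq_empty_iff]
              intro n _ h
              exact hi h.1
            rw [this, card_empty, Nat.cast_zero]
            positivity
      _ = (T + 1) * ((N * x / L ^ (U + 2 * C + 5)) / t) := by
          rw [sum_const, card_range, nsmul_eq_mul]
          push_cast
          ring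
  have hc2 : (Bad2.card : ℝ) ≤ (x * (2 * R * L)) / t := by
    rw [hB2]
    apply markov (fun n => ∑ m ∈ Icc 1 x, ppw (n - m ^ 2)) (fun n => sum_nonneg fun m _ => ppw_nn _) ht0
    have := pp_sum (A := N) (y := x) (by omega)
    rw [← hR, ← hL] at this
    exact this
  have hcu : ((Bad1 ∪ Bad2).card : ℝ) ≤ Bad1.card + Bad2.card := by exact_mod_cast card_union_le _ _
  refine hcu.trans ?_
  have hLU : 0 < L ^ U := by positivity
  have hLC : 0 < L ^ C := by positivity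
  have k1 : (T + 1) * ((N * x / L ^ (U + 2 * C + 5)) / t) ≤ (1 / 2) * (N / L ^ U) := by
    have h6 : ((T : ℝ) + 1) ≤ 2 * (L ^ C * L ^ 2) := by
      have : P = L ^ C * L ^ 2 := by rw [hP]; ring
      rw [← this]
      linarith
    have h7 : N * x / L ^ (U + 2 * C + 5) / t ≤ 4 * N / (L ^ U * L ^ C * L ^ 5) := by
      rw [ht, div_div, div_le_div_iff₀ (by positivity) (by positivity)]
      have e : L ^ (U + 2 * C + 5) = L ^ U * L ^ C * L ^ C * L ^ 5 := by ring
      rw [e]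
      calc (N : ℝ) * x * (L ^ U * L ^ C * L ^ 5) ≤ N * R * (L ^ U * L ^ C * L ^ 5) := by gcongr
        _ = 4 * N * (L ^ U * L ^ C * L ^ C * L ^ 5 * (R / (4 * L ^ C))) := by field_simp
    calc (T + 1) * ((N * x / L ^ (U + 2 * C + 5)) / t) ≤ (2 * (L ^ C * L ^ 2)) * (4 * N / (L ^ U * L ^ C * L ^ 5)) := by
          apply mul_le_mul h6 h7 (by positivity) (by positivity)
      _ = (8 / L ^ 3) * (N / L ^ U) := by field_simp; ring
      _ ≤ (1 / 2) * (N / L ^ U) := by
          apply mul_le_mul_of_nonneg_right _ (by positivity)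
          rw [div_le_div_iff₀ (by positivity) (by norm_num)]
          have : L ^ 1 ≤ L ^ 3 := pow_le_pow_right₀ hL1 (by norm_num)
          rw [pow_one] at this
          linarith
  have k2 : (x * (2 * R * L)) / t ≤ (1 / 2) * (N / L ^ U) := by
    rw [ht, div_le_iff₀ (by positivity)]
    have e : L ^ (C + U + 2) = L ^ C * L ^ U * L ^ 2 := by ring
    rw [e, one_mul] at b4
    have h6 : 16 * (L ^ C * L ^ U * L) ≤ R := by
      refine le_trans ?_ b4
      have : 16 * L ≤ L ^ 2 := by nlinarith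
      calc 16 * (L ^ C * L ^ U * L) = (L ^ C * L ^ U) * (16 * L) := by ring
        _ ≤ (L ^ C * L ^ U) * L ^ 2 := by gcongr
        _ = _ := by ring
    calc (x : ℝ) * (2 * R * L) ≤ R * (2 * R * L) := by gcongr
      _ = 2 * R * R * L := by ring
      _ ≤ (1 / 2 * (N / L ^ U)) * (R / (4 * L ^ C)) := by
          rw [← hRR]
          have e2 : (1 / 2 * (R * R / L ^ U)) * (R / (4 * L ^ C)) = (R * R * R) / (8 * (L ^ C * L ^ U)) := by
            field_simp
            ring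
          rw [e2, le_div_iff₀ (by positivity)]
          have e7 : 2 * R * R * L * (8 * (L ^ C * L ^ U)) = (R * R) * (16 * (L ^ C * L ^ U * L)) := by ring
          have e8 : R * R * R = (R * R) * R := by ring
          rw [e7, e8]
          exact mul_le_mul_of_nonneg_left h6 (by positivity)
  calc (Bad1.card : ℝ) + Bad2.card ≤ (1 / 2) * (N / L ^ U) + (1 / 2) * (N / L ^ U) :=
        add_le_add (hc1.trans k1) (hc2.trans k2)
    _ = _ := by ring

end Pool.Agent.V8H21.SQ
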