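import Pool.Agent.V8H21.SQ.L2
import Pool.Agent.V8H21.SQ.Main1

set_option autoImplicit false

/-! Sums of a dense set of primes and a dense set of squares: the main inequality. -/

namespace Pool.Agent.V8H21.SQ

open Finset
open Pool.Agent.H373R2.T7 (Vz pz Vz_pos mem_pz Vz_le_one lamz lamz_nonneg ev_L' ev_log' Vz_inv_small nuB PerB sys_count
  prod_dvd_iff)

/-- the primorial -/
def Wp (w : ℕ) : ℕ := ∏ p ∈ pz w, p

lemma Wp_pos (w : ℕ) : 1 ≤ Wp w := by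
  unfold Wp
  exact Nat.one_le_iff_ne_zero.2 (prod_ne_zero_iff.2 fun p hp => (mem_pz.1 hp).2.ne_zero)

lemma dvd_Wp {w p : ℕ} (hp : p ∈ pz w) : p ∣ Wp w := dvd_prod_of_mem _ hp

lemma not_dvd_Wp {w z p : ℕ} (hp : p ∈ pw w z) : ¬ p ∣ Wp w := by
  unfold Wp
  rw [mem_pw] at hp
  intro h
  obtain ⟨q, hq, h2⟩ := (Prime.dvd_finset_prod_iff hp.2.1.prime _).1 h
  rw [mem_pz] at hq
  have := (Nat.prime_dvd_prime_iff_eq hp.2.1 hq.2).1 h2
  omega

/-- pigeonhole -/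
lemma pigeon (M : Finset ℕ) {W : ℕ} (hW : 1 ≤ W) : ∃ b < W, (M.card : ℝ) / W ≤ ((M.filter (fun m => m ≡ b [MOD W])).card : ℝ) := by
  by_contra hcon
  push Not at hcon
  have hW0 : (0 : ℝ) < W := by exact_mod_cast hW
  have h1 : (M.card : ℝ) = ∑ b ∈ range W, ((M.filter (fun m => m ≡ b [MOD W])).card : ℝ) := by
    have h2 := card_eq_sum_card_fiberwise (f := fun m => m % W) (s := M) (t := range W)
      (fun m _ => by rw [mem_coe, mem_range]; exact Nat.mod_lt _ hW)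
    rw [h2]
    push_cast
    refine sum_congr rfl fun b hb => ?_
    congr 2
    apply filter_congr
    intro m _
    rw [mem_range] at hb
    unfold Nat.ModEq
    rw [Nat.mod_eq_of_lt hb]
  have h3 : ∑ b ∈ range W, ((M.filter (fun m => m ≡ b [MOD W])).card : ℝ) < ∑ _b ∈ range W, (M.card : ℝ) / W := by
    apply sum_lt_sum_of_nonempty
    · exact ⟨0, mem_range.2 hW⟩
    · intro b hb
      exact hcon b (mem_range.1 hb)
  rw [sum_const, card_range, nsmul_eq_mul, mul_div_cancel₀ _ hW0.ne', ← h1] at h3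
  exact lt_irrefl _ h3

lemma split_ineq {f η : ℝ} (hf : 1 ≤ f) (hη : 0 < η) {w : ℕ} (hw : 1 ≤ w) :
    f - 1 ≤ η + (1 + η) / (1 + η) ^ w * f ^ w := by
  have h1 : 0 < (1 + η) ^ w := by positivity
  rcases le_total f (1 + η) with h | h
  · have : 0 ≤ (1 + η) / (1 + η) ^ w * f ^ w := by positivity
    linarith
  · obtain ⟨v, rfl⟩ : ∃ v, w = v + 1 := ⟨w - 1, by omega⟩
    have h2 : (1 + η) ^ v ≤ f ^ v := pow_le_pow_left₀ (by linarith) h v
    have h3 : f ≤ (1 + η) / (1 + η) ^ (v + 1) * f ^ (v + 1) := by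
      have e : (1 + η) / (1 + η) ^ (v + 1) * f ^ (v + 1) = f * (f ^ v / (1 + η) ^ v) := by
        rw [pow_succ, pow_succ]
        field_simp
      rw [e]
      apply le_mul_of_one_le_right (by linarith)
      rw [one_le_div (by positivity)]
      exact h2
    linarith

/-- the mean of the local factors over a dense subset of a class -/
lemma mean_fh {w z W b Y : ℕ} {δ η : ℝ} (hw : 1 ≤ w) (hδ : 0 < δ) (hη : 0 < η) (hW : 1 ≤ W)
    (hWc : ∀ p ∈ pw w z, ¬ p ∣ W) (M : Finset ℕ) (hM : ∀ m ∈ M, m ∈ Icc 1 Y ∧ m ≡ b [MOD W])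
    (hcard : δ * (Y / W) ≤ (M.card : ℝ)) (hV : ((Vz z)⁻¹) ^ (2 * w) ≤ (Y : ℝ) / W)
    (hH : (Real.exp 4 + 1) * (1 + η) ≤ η * δ * (1 + η) ^ w) :
    ∑ m ∈ M, ∑ m' ∈ M, (fh w z ((m : ℤ) ^ 2 - (m' : ℤ) ^ 2) - 1) ≤ 2 * η * (M.card : ℝ) ^ 2 := by
  rw [sum_comm]
  have h1 : ∀ m' ∈ M, ∑ m ∈ M, (fh w z ((m : ℤ) ^ 2 - (m' : ℤ) ^ 2) - 1) ≤ 2 * η * M.card := by
    intro m' _
    have h2 : ∑ m ∈ M, (fh w z ((m : ℤ) ^ 2 - (m' : ℤ) ^ 2) - 1) ≤
        ∑ m ∈ M, (η + (1 + η) / (1 + η) ^ w * fh w z ((m : ℤ) ^ 2 - (m' : ℤ) ^ 2) ^ w) :=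
      sum_le_sum fun m _ => split_ineq (one_le_fh _ _ _) hη hw
    rw [sum_add_distrib, sum_const, nsmul_eq_mul, ← mul_sum] at h2
    have h3 : ∑ m ∈ M, fh w z ((m : ℤ) ^ 2 - (m' : ℤ) ^ 2) ^ w ≤
        ∑ m ∈ (Icc 1 Y).filter (fun m => m ≡ b [MOD W]), fh w z ((m : ℤ) ^ 2 - (m' : ℤ) ^ 2) ^ w := by
      apply sum_le_sum_of_subset_of_nonneg
      · intro m hm
        rw [mem_filter]
        exact hM m hm
      · intro m _ _
        have := one_le_fh w z ((m : ℤ) ^ 2 - (m' : ℤ) ^ 2)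
        positivity
    have h4 := moment_class (k := w) (w := w) (z := z) (W := W) (b := b) (Y := Y) (m' := m') hw le_rfl hW hWc
    have h5 : ∑ m ∈ M, fh w z ((m : ℤ) ^ 2 - (m' : ℤ) ^ 2) ^ w ≤ (Real.exp 4 + 1) * (Y / W) := by
      refine (h3.trans h4).trans ?_
      have e : (Real.exp 4 + 1) * ((Y : ℝ) / W) = Y / W * Real.exp 4 + Y / W := by ring
      rw [e]
      linarith
    have hP : 0 < (1 + η) ^ w := by positivity
    have h6 : (1 + η) / (1 + η) ^ w * ∑ m ∈ M, fh w z ((m : ℤ) ^ 2 - (m' : ℤ) ^ 2) ^ w ≤ η * M.card := by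
      calc (1 + η) / (1 + η) ^ w * ∑ m ∈ M, fh w z ((m : ℤ) ^ 2 - (m' : ℤ) ^ 2) ^ w ≤
            (1 + η) / (1 + η) ^ w * ((Real.exp 4 + 1) * (Y / W)) := mul_le_mul_of_nonneg_left h5 (by positivity)
        _ = ((Real.exp 4 + 1) * (1 + η)) / (1 + η) ^ w * (Y / W) := by ring
        _ ≤ (η * δ) * (Y / W) := by
            apply mul_le_mul_of_nonneg_right _ (by positivity)
            rw [div_le_iff₀ hP]
            exact hH
        _ = η * (δ * (Y / W)) := by ring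
        _ ≤ η * M.card := mul_le_mul_of_nonneg_left hcard hη.le
    linarith
  calc ∑ m' ∈ M, ∑ m ∈ M, (fh w z ((m : ℤ) ^ 2 - (m' : ℤ) ^ 2) - 1) ≤ ∑ _m' ∈ M, 2 * η * (M.card : ℝ) := sum_le_sum h1
    _ = _ := by rw [sum_const, nsmul_eq_mul]; ring

/-- the integers coprime to the primorial after a shift -/
lemma card_T (w : ℕ) (hw : 1 ≤ w) : ∃ X0 : ℕ, ∀ X : ℕ, X0 ≤ X → ∀ h : ℕ,
    (((Icc 1 X).filter (fun n => ∀ p ∈ pz w, ¬ p ∣ n + h)).card : ℝ) ≤ X * Vz w + X / Real.log X := by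
  classical
  obtain ⟨X1, h1⟩ := sys_count 2 1 1 (by norm_num)
  obtain ⟨X3, h3⟩ := ev_L' (w : ℝ)
  refine ⟨X1 + X3, fun X hX h => ?_⟩
  have b1 := h1 X (by omega) w hw (by rw [pow_one]; exact h3 X (by omega)) (Qs h) (Qs_perB h)
  have hV : ∏ p ∈ pz w, (1 - (nuB (Qs h) p : ℝ) / p) = Vz w := by
    unfold Vz
    refine prod_congr rfl fun p hp => ?_
    rw [Qs_nu h (mem_pz.1 hp).2, Nat.cast_one]
  rw [hV, pow_one] at b1
  have b2 := (abs_le.1 b1).2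
  have e : (((Icc 1 X).filter (fun n => ∀ p ∈ pz w, ¬ p ∣ n + h)).card : ℝ) =
      (((Icc 1 X).filter (fun n => ∀ p ∈ pz w, ¬ Qs h p n)).card : ℝ) := by
    unfold Qs
    congr!
  rw [e]
  linarith

/-- the weights of a set -/
noncomputable def ind (M : Finset ℕ) (m : ℕ) : ℂ := if m ∈ M then 1 else 0

lemma ind_le (M : Finset ℕ) (m : ℕ) : ‖ind M m‖ ≤ 1 := by
  unfold ind
  split_ifs <;> simp

lemma err_ind {M : Finset ℕ} {Y : ℕ} (hM : M ⊆ Icc 1 Y) (z n : ℕ) :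
    err (ind M) z Y n = ((∑ m ∈ M, (thp (n - m ^ 2) - lamz z (n - m ^ 2)) : ℝ) : ℂ) := by
  unfold err ind
  rw [← sum_filter_add_sum_filter_not (Icc 1 Y) (fun m => m ∈ M)]
  have h1 : (Icc 1 Y).filter (fun m => m ∈ M) = M := by
    ext m
    rw [mem_filter]
    exact ⟨fun h => h.2, fun h => ⟨hM h, h⟩⟩
  have h2 : ∑ m ∈ (Icc 1 Y).filter (fun m => ¬ m ∈ M), (if m ∈ M then (1 : ℂ) else 0) * ((thp (n - m ^ 2) - lamz z (n - m ^ 2) : ℝ) : ℂ) = 0 := by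
    apply sum_eq_zero
    intro m hm
    rw [if_neg (mem_filter.1 hm).2, zero_mul]
  rw [h1, h2, add_zero, Complex.ofReal_sum]
  refine sum_congr rfl fun m hm => ?_
  rw [if_pos hm, one_mul]

end Pool.Agent.V8H21.SQ
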