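import Pool.Agent.V8H21.SQ.Dens

set_option autoImplicit false

/-! Sums of a dense set of primes and a dense set of squares: the core. -/

namespace Pool.Agent.V8H21.SQ

open Finset
open Pool.Agent.H373R2.T7 (Vz pz Vz_pos mem_pz Vz_le_one lamz lamz_nonneg ev_L' ev_log' Vz_inv_small)

/-- the sums -/
def sums (A M : Finset ℕ) : Finset ℕ := (A ×ˢ M).image (fun q => q.1 + q.2 ^ 2)

lemma mem_sums {A M : Finset ℕ} {n : ℕ} : n ∈ sums A M ↔ ∃ a ∈ A, ∃ m ∈ M, a + m ^ 2 = n := by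
  unfold sums
  rw [mem_image]
  constructor
  · rintro ⟨⟨a, m⟩, h, rfl⟩
    rw [mem_product] at h
    exact ⟨a, h.1, m, h.2, rfl⟩
  · rintro ⟨a, ha, m, hm, rfl⟩
    exact ⟨(a, m), mem_product.2 ⟨ha, hm⟩, rfl⟩

/-- double counting -/
lemma mass_le {A M : Finset ℕ} (hA : ∀ a ∈ A, a.Prime) :
    (M.card : ℝ) * ∑ a ∈ A, Real.log a ≤ ∑ n ∈ sums A M, ∑ m ∈ M, thp (n - m ^ 2) := by
  rw [sum_comm]
  have h1 : ∀ m ∈ M, ∑ a ∈ A, Real.log a ≤ ∑ n ∈ sums A M, thp (n - m ^ 2) := by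
    intro m hm
    have h2 : ∑ a ∈ A, Real.log a = ∑ n ∈ A.image (fun a => a + m ^ 2), thp (n - m ^ 2) := by
      rw [sum_image]
      · refine sum_congr rfl fun a ha => ?_
        rw [Nat.add_sub_cancel]
        unfold thp
        rw [if_pos (hA a ha)]
      · intro a _ b _ hab
        simp only at hab
        omega
    rw [h2]
    apply sum_le_sum_of_subset_of_nonneg
    · intro n hn
      rw [mem_image] at hn
      obtain ⟨a, ha, rfl⟩ := hn
      exact mem_sums.2 ⟨a, ha, m, hm, rfl⟩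
    · intro n _ _
      exact thp_nn _
  calc (M.card : ℝ) * ∑ a ∈ A, Real.log a = ∑ _m ∈ M, ∑ a ∈ A, Real.log a := by rw [sum_const, nsmul_eq_mul]
    _ ≤ _ := sum_le_sum h1

/-- the core inequality -/
theorem core (w : ℕ) (hw : 2 ≤ w) (δ η : ℝ) (hδ : 0 < δ) (hη : 0 < η) (hη1 : η ≤ 1)
    (hH : (Real.exp 4 + 1) * (1 + η) ≤ η * δ * (1 + η) ^ w) (K : ℕ) :
    ∃ N0 : ℕ, ∀ N : ℕ, N0 ≤ N → ∀ Y : ℕ, Y ^ 2 ≤ N → N ≤ K * Y ^ 2 → ∀ A M : Finset ℕ,
      (∀ a ∈ A, a.Prime ∧ a ≤ N) → M ⊆ Icc 1 Y → δ * Y ≤ (M.card : ℝ) →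
      Vz w * (∑ a ∈ A, Real.log a - 6 * Real.sqrt η * N) ≤ ((sums A M).card : ℝ) := by
  classical
  obtain ⟨B0, h0⟩ := l1_w (K + 2) 2 (by omega)
  obtain ⟨N1, h1⟩ := h0 (B0 + 1)
  obtain ⟨N2, h2⟩ := l2_bound (B0 + 1)
  obtain ⟨N3, h3⟩ := Vz_inv_small (B0 + 1)
  obtain ⟨N4, h4⟩ := card_T w (by omega)
  set W := Wp w with hWd
  have hW1 : 1 ≤ W := Wp_pos w
  have hW0 : (0 : ℝ) < W := by exact_mod_cast hW1
  have hsη : 0 < Real.sqrt η := Real.sqrt_pos.2 hη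
  have hVw := Vz_pos w
  have hVw1 := Vz_le_one w
  obtain ⟨N5, h5⟩ := ev_log' 1 (8 * W / (Real.sqrt η * δ))
  obtain ⟨N6, h6⟩ := ev_log' (2 * w) (W * K)
  obtain ⟨N7, h7⟩ := ev_L' (max (max ((w : ℝ) + 2) (W / (Real.sqrt η * δ))) (3 / (η * Vz w)))
  refine ⟨N1 + N2 + N3 + N4 + N5 + N6 + N7 + 4, fun N hN Y hY1 hY2 A M hA hM hMc => ?_⟩
  have b5 := h5 N (by omega)
  have b6 := h6 N (by omega)
  have b7 := h7 N (by omega)
  have b7a : (w : ℝ) + 2 ≤ Real.log N := ((le_max_left _ _).trans (le_max_left _ _)).trans b7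
  have b7b : W / (Real.sqrt η * δ) ≤ Real.log N := ((le_max_right _ _).trans (le_max_left _ _)).trans b7
  have b7c : 3 / (η * Vz w) ≤ Real.log N := (le_max_right _ _).trans b7
  obtain ⟨L, hL⟩ : ∃ L, L = Real.log (N : ℝ) := ⟨_, rfl⟩
  have hNr : (4 : ℝ) ≤ N := by exact_mod_cast (by omega : 4 ≤ N)
  have hN0 : (0 : ℝ) < N := by linarith
  rw [← hL] at b5 b6 b7a b7b b7c
  have hw2 : (2 : ℝ) ≤ w := by exact_mod_cast hw
  have hL0 : 0 < L := by linarith
  have hL1 : 1 ≤ L := by linarith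
  obtain ⟨R, hR⟩ : ∃ R, R = Real.sqrt N := ⟨_, rfl⟩
  rw [← hR] at b5 b6
  have hR0 : 0 < R := by rw [hR]; exact Real.sqrt_pos.2 hN0
  have hRR : R * R = N := by rw [hR]; exact Real.mul_self_sqrt hN0.le
  have hY0 : 1 ≤ Y := by
    rcases Nat.eq_zero_or_pos Y with h | h
    · rw [h] at hY2
      simp at hY2
      omega
    · exact h
  have hYr : (1 : ℝ) ≤ Y := by exact_mod_cast hY0
  have hK1 : 1 ≤ K := by
    rcases Nat.eq_zero_or_pos K with h | h
    · rw [h] at hY2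
      omega
    · exact h
  have hKr : (1 : ℝ) ≤ K := by exact_mod_cast hK1
  have hYR : (Y : ℝ) ≤ R := by
    rw [hR]
    apply Real.le_sqrt_of_sq_le
    exact_mod_cast hY1
  have hRY : R ≤ K * Y := by
    rw [hR, Real.sqrt_le_left (by positivity)]
    have e1 : (N : ℝ) ≤ K * (Y : ℝ) ^ 2 := by exact_mod_cast hY2
    have e2 : (K : ℝ) * (Y : ℝ) ^ 2 ≤ (K : ℝ) ^ 2 * (Y : ℝ) ^ 2 := by
      apply mul_le_mul_of_nonneg_right _ (by positivity)
      nlinarith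
    calc (N : ℝ) ≤ K * (Y : ℝ) ^ 2 := e1
      _ ≤ (K : ℝ) ^ 2 * (Y : ℝ) ^ 2 := e2
      _ = _ := by ring
  -- the sieve level
  set z : ℕ := ⌈L ^ B0⌉₊ + w with hz
  have hzlow : L ^ B0 ≤ z := by
    rw [hz]
    push_cast
    have := Nat.le_ceil (L ^ B0)
    have h8 : (0 : ℝ) ≤ w := Nat.cast_nonneg _
    linarith
  have hP1 : 1 ≤ L ^ B0 := one_le_pow₀ hL1
  have hzup : (z : ℝ) ≤ L ^ (B0 + 1) := by
    have h8 : (⌈L ^ B0⌉₊ : ℝ) < L ^ B0 + 1 := Nat.ceil_lt_add_one (by positivity)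
    rw [hz]
    push_cast
    calc (⌈L ^ B0⌉₊ : ℝ) + w ≤ L ^ B0 + 1 + w := by linarith
      _ ≤ L ^ B0 * (w + 2) := by nlinarith
      _ ≤ L ^ B0 * L := by gcongr
      _ = _ := by ring
  have hwz : w ≤ z := by rw [hz]; omega
  have hzn : 2 ≤ z := hw.trans hwz
  have hVz := h3 N (by omega) z (by omega) (by rw [← hL]; exact hzup)
  rw [← hL] at hVz
  set X := 2 * N with hX
  have hXr : (X : ℝ) = 2 * N := by rw [hX]; push_cast; ring
  have hlogX1 : L ≤ Real.log X := by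
    rw [hL]
    apply Real.log_le_log hN0
    rw [hXr]
    linarith
  have hlogX2 : Real.log X ≤ 2 * L := by
    rw [hXr, Real.log_mul (by norm_num) hN0.ne', ← hL]
    have := Real.log_two_lt_d9
    linarith
  -- the class
  obtain ⟨b, hbW, hb⟩ := pigeon M hW1
  set Mb := M.filter (fun m => m ≡ b [MOD W]) with hMb
  have hMbM : Mb ⊆ M := filter_subset _ _
  have hMbY : Mb ⊆ Icc 1 Y := hMbM.trans hM
  have hMbc : δ * (Y / W) ≤ (Mb.card : ℝ) := by
    refine le_trans ?_ hb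
    rw [mul_div_assoc']
    exact div_le_div_of_nonneg_right hMc hW0.le
  obtain ⟨c, hc⟩ : ∃ c : ℝ, c = (Mb.card : ℝ) := ⟨_, rfl⟩
  rw [← hc] at hMbc
  have hc0 : 0 < c := lt_of_lt_of_le (by positivity) hMbc
  -- the mean of the local factors
  have hVY : ((Vz z)⁻¹) ^ (2 * w) ≤ (Y : ℝ) / W := by
    rw [le_div_iff₀ hW0]
    have h8 : ((Vz z)⁻¹) ^ (2 * w) ≤ L ^ (2 * w) := pow_le_pow_left₀ (inv_nonneg.2 (Vz_pos z).le) hVz _
    have h9 : W * K * L ^ (2 * w) ≤ K * Y := b6.trans hRY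
    have h10 : W * L ^ (2 * w) ≤ Y := by
      have hK0 : (0 : ℝ) < K := by linarith
      have : K * (W * L ^ (2 * w)) ≤ K * Y := by linarith
      exact le_of_mul_le_mul_left this hK0
    calc ((Vz z)⁻¹) ^ (2 * w) * W ≤ L ^ (2 * w) * W := by gcongr
      _ ≤ Y := by linarith
  have hmean := mean_fh (w := w) (z := z) (W := W) (b := b) (Y := Y) (by omega) hδ hη hW1
    (fun p hp => not_dvd_Wp hp) Mb (fun m hm => ⟨hMbY hm, (mem_filter.1 hm).2⟩) (by rw [← hc]; exact hMbc) hVY hH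
  rw [← hc] at hmean
  -- the mean square
  have hdiv : ∀ m ∈ Mb, ∀ m' ∈ Mb, ∀ p ∈ pz w, (p : ℤ) ∣ (m : ℤ) ^ 2 - (m' : ℤ) ^ 2 := by
    intro m hm m' hm' p hp
    have e1 : m ≡ m' [MOD W] := (mem_filter.1 hm).2.trans (mem_filter.1 hm').2.symm
    have e2 : m ≡ m' [MOD p] := e1.of_dvd (dvd_Wp hp)
    have e3 : (m' : ℤ) ≡ m [ZMOD p] := (Int.natCast_modEq_iff.2 e2).symm
    exact ((e3.pow 2).dvd)
  have hL2 := h2 X (by omega) z w hw hwz (hzup.trans (pow_le_pow_left₀ hL0.le hlogX1 _)) Mb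
    (fun m hm => by
      have h8 : m ≤ Y := (mem_Icc.1 (hMbY hm)).2
      have h9 : m ^ 2 ≤ N := (Nat.pow_le_pow_left h8 2).trans hY1
      omega) hdiv
  rw [← hc] at hL2
  -- the support
  set D : ℕ → ℝ := fun n => ∑ m ∈ Mb, d2 w z (n - m ^ 2) with hD
  set h : ℕ := (W - 1) * b ^ 2 with hh
  set T := (Icc 1 X).filter (fun n => ∀ p ∈ pz w, ¬ p ∣ n + h) with hT
  have hTc := h4 X (by omega) h
  rw [← hT] at hTc
  have hsupp : ∀ n ∈ Icc 1 X, n ∉ T → D n = 0 := by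
    intro n hn hnT
    rw [hD]
    simp only
    apply sum_eq_zero
    intro m hm
    have hcls := (mem_filter.1 hm).2
    rw [hT, mem_filter] at hnT
    push Not at hnT
    obtain ⟨p, hp, hpd⟩ := hnT hn
    have hpW := dvd_Wp hp
    rcases Nat.eq_zero_or_pos (n - m ^ 2) with h0 | h0
    · rw [h0, d2_zero hw hwz]
    · have h8 : p ∣ n - m ^ 2 := by
        have e1 : n + h = (n - m ^ 2) + (m ^ 2 + (W - 1) * b ^ 2) := by rw [hh]; omega
        have e2 : p ∣ m ^ 2 + (W - 1) * b ^ 2 := by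
          have e3 : m ^ 2 + (W - 1) * b ^ 2 ≡ b ^ 2 + (W - 1) * b ^ 2 [MOD p] :=
            Nat.ModEq.add_right _ ((hcls.of_dvd hpW).pow 2)
          rw [Nat.ModEq.dvd_iff e3 dvd_rfl]
          have e4 : b ^ 2 + (W - 1) * b ^ 2 = W * b ^ 2 := by
            obtain ⟨V, hV⟩ : ∃ V, W = V + 1 := ⟨W - 1, by omega⟩
            rw [hV, Nat.add_sub_cancel]
            ring
          rw [e4]
          exact dvd_mul_of_dvd_left hpW _
        rw [e1] at hpd
        exact (Nat.dvd_add_left e2).1 hpd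
      unfold d2 lamz
      rw [if_neg (fun g => g p (by rw [mem_pz] at hp ⊢; exact ⟨by omega, hp.2⟩) h8), if_neg (fun g => g p hp h8)]
      ring
  -- the error terms
  set S := sums A Mb with hS
  have hSX : S ⊆ Icc 1 X := by
    intro n hn
    rw [hS, mem_sums] at hn
    obtain ⟨a, ha, m, hm, rfl⟩ := hn
    have h8 : m ≤ Y := (mem_Icc.1 (hMbY hm)).2
    have h9 : m ^ 2 ≤ N := (Nat.pow_le_pow_left h8 2).trans hY1
    have h10 := (hA a ha).1.pos
    have h11 := (hA a ha).2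
    rw [mem_Icc]
    omega
  have hDsum : ∑ n ∈ S, |D n| ≤ Real.sqrt (T.card * ∑ n ∈ Icc 1 X, (D n) ^ 2) := by
    have h8 : ∑ n ∈ S, |D n| ≤ ∑ n ∈ T, |D n| := by
      have h9 : ∑ n ∈ S, |D n| = ∑ n ∈ S.filter (fun n => n ∈ T), |D n| := by
        rw [sum_filter]
        refine sum_congr rfl fun n hn => ?_
        split_ifs with h10
        · rfl
        · rw [hsupp n (hSX hn) h10, abs_zero]
      rw [h9]
      apply sum_le_sum_of_subset_of_nonneg
      · intro n hn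
        exact (mem_filter.1 hn).2
      · intro n _ _
        exact abs_nonneg _
    refine h8.trans ?_
    apply Real.le_sqrt_of_sq_le
    calc (∑ n ∈ T, |D n|) ^ 2 ≤ T.card * ∑ n ∈ T, |D n| ^ 2 := sq_sum_le_card_mul_sum_sq
      _ = T.card * ∑ n ∈ T, (D n) ^ 2 := by simp only [sq_abs]
      _ ≤ T.card * ∑ n ∈ Icc 1 X, (D n) ^ 2 := by
          apply mul_le_mul_of_nonneg_left _ (Nat.cast_nonneg _)
          apply sum_le_sum_of_subset_of_nonneg (filter_subset _ _)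
          intro n _ _
          exact sq_nonneg _
  have hlX0 : 0 < Real.log X := lt_of_lt_of_le hL0 hlogX1
  obtain ⟨t, ht⟩ : ∃ t : ℝ, t = 1 / Real.log X := ⟨_, rfl⟩
  have ht0 : 0 < t := by rw [ht]; positivity
  have htη : 3 * t ≤ η * Vz w := by
    rw [ht, mul_one_div, div_le_iff₀ hlX0]
    have h8 : 0 < η * Vz w := by positivity
    have h9 : 3 ≤ η * Vz w * L := by
      rw [div_le_iff₀ h8] at b7c
      linarith
    exact h9.trans (mul_le_mul_of_nonneg_left hlogX1 h8.le)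
  have hDbd : Real.sqrt (T.card * ∑ n ∈ Icc 1 X, (D n) ^ 2) ≤ c * (X * (2 * Real.sqrt η)) := by
    rw [Real.sqrt_le_left (by positivity)]
    have hX0 : (0 : ℝ) < X := by rw [hXr]; linarith
    have h8 : (T.card : ℝ) ≤ X * (Vz w + t) := by
      refine hTc.trans (le_of_eq ?_)
      rw [ht]
      ring
    have h9 : ∑ n ∈ Icc 1 X, (D n) ^ 2 ≤ c ^ 2 * X * (2 * η * (Vz w)⁻¹ + 2 * t) := by
      refine hL2.trans ?_
      have h10 := mul_le_mul_of_nonneg_left hmean (by positivity : 0 ≤ (X : ℝ) * (Vz w)⁻¹)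
      have e : c ^ 2 * (2 * X / Real.log X) = c ^ 2 * X * (2 * t) := by rw [ht]; ring
      rw [e]
      calc _ ≤ X * (Vz w)⁻¹ * (2 * η * c ^ 2) + c ^ 2 * X * (2 * t) := by linarith
        _ = _ := by ring
    have h10 : (Vz w + t) * (2 * η * (Vz w)⁻¹ + 2 * t) ≤ 4 * η := by
      have e : (Vz w + t) * (2 * η * (Vz w)⁻¹ + 2 * t) = 2 * η + 2 * (t * (Vz w + t + η * (Vz w)⁻¹)) := by
        field_simp
        ring
      rw [e]
      have hηV : η * Vz w ≤ Vz w := by nlinarith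
      have h11 : t ≤ 1 := by nlinarith
      have h12 : 1 ≤ (Vz w)⁻¹ := (one_le_inv₀ hVw).2 hVw1
      have h13 : Vz w + t + η * (Vz w)⁻¹ ≤ 3 * (Vz w)⁻¹ := by nlinarith
      have h14 : t * (Vz w + t + η * (Vz w)⁻¹) ≤ t * (3 * (Vz w)⁻¹) := mul_le_mul_of_nonneg_left h13 ht0.le
      have h15 : t * (3 * (Vz w)⁻¹) ≤ η := by
        have : t * (3 * (Vz w)⁻¹) = (3 * t) * (Vz w)⁻¹ := by ring
        rw [this]
        calc (3 * t) * (Vz w)⁻¹ ≤ (η * Vz w) * (Vz w)⁻¹ := mul_le_mul_of_nonneg_right htη (inv_nonneg.2 hVw.le)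
          _ = η := by field_simp
      linarith
    calc (T.card : ℝ) * ∑ n ∈ Icc 1 X, (D n) ^ 2 ≤ (X * (Vz w + t)) * (c ^ 2 * X * (2 * η * (Vz w)⁻¹ + 2 * t)) := by
          apply mul_le_mul h8 h9 (sum_nonneg fun n _ => sq_nonneg _) (by positivity)
      _ = (c ^ 2 * X ^ 2) * ((Vz w + t) * (2 * η * (Vz w)⁻¹ + 2 * t)) := by ring
      _ ≤ (c ^ 2 * X ^ 2) * (4 * η) := mul_le_mul_of_nonneg_left h10 (by positivity)
      _ = (c * (X * (2 * Real.sqrt η))) ^ 2 := by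
          have : Real.sqrt η ^ 2 = η := Real.sq_sqrt hη.le
          calc (c ^ 2 * X ^ 2) * (4 * η) = (c ^ 2 * X ^ 2) * (4 * Real.sqrt η ^ 2) := by rw [this]
            _ = _ := by ring
  -- primes minus the model
  set e1 : ℕ → ℝ := fun n => ∑ m ∈ Mb, (thp (n - m ^ 2) - lamz z (n - m ^ 2)) with he1
  have hE1 : ∑ n ∈ Icc 1 X, |e1 n| ≤ N * Y / L ^ 2 + Y * (2 * Real.sqrt X * Real.log X) := by
    have h8 := h1 N (by omega) z (by rw [← hL]; exact hzlow) (by rw [← hL]; exact hzup) Y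
      (hY2.trans (Nat.mul_le_mul_right _ (by omega))) (hY1.trans (Nat.le_mul_of_pos_left _ (by omega))) X
      (by rw [hX]; exact Nat.mul_le_mul_right _ (by omega)) (ind Mb) (ind_le Mb) Y le_rfl
    rw [← hL] at h8
    have h9 := pp_sum (A := X) (y := Y) (by omega)
    have h10 : ∀ n, |e1 n| ≤ ‖dif (ind Mb) z Y n‖ + ∑ m ∈ Icc 1 Y, ppw (n - m ^ 2) := by
      intro n
      have h11 := err_ind hMbY z n
      rw [err_eq hzn] at h11
      have h12 : |e1 n| = ‖dif (ind Mb) z Y n - ∑ m ∈ Icc 1 Y, ind Mb m * ((ppw (n - m ^ 2) : ℝ) : ℂ)‖ := by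
        rw [h11, Complex.norm_real, Real.norm_eq_abs]
      rw [h12]
      refine (norm_sub_le _ _).trans (add_le_add le_rfl ?_)
      refine (norm_sum_le _ _).trans (sum_le_sum fun m _ => ?_)
      rw [norm_mul, Complex.norm_real, Real.norm_of_nonneg (ppw_nn _)]
      calc ‖ind Mb m‖ * ppw (n - m ^ 2) ≤ 1 * ppw (n - m ^ 2) := mul_le_mul_of_nonneg_right (ind_le Mb m) (ppw_nn _)
        _ = _ := one_mul _
    calc ∑ n ∈ Icc 1 X, |e1 n| ≤ ∑ n ∈ Icc 1 X, (‖dif (ind Mb) z Y n‖ + ∑ m ∈ Icc 1 Y, ppw (n - m ^ 2)) :=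
          sum_le_sum fun n _ => h10 n
      _ = ∑ n ∈ Icc 1 X, ‖dif (ind Mb) z Y n‖ + ∑ n ∈ Icc 1 X, ∑ m ∈ Icc 1 Y, ppw (n - m ^ 2) := sum_add_distrib
      _ ≤ _ := add_le_add h8 h9
  -- the two small terms
  have hcY : δ * Y ≤ c * W := by
    have := mul_le_mul_of_nonneg_right hMbc hW0.le
    calc δ * Y = δ * (Y / W) * W := by field_simp
      _ ≤ _ := this
  have hs1 : (N : ℝ) * Y / L ^ 2 ≤ Real.sqrt η * N * c := by
    have h8 : W ≤ L * (Real.sqrt η * δ) := by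
      rwa [div_le_iff₀ (by positivity)] at b7b
    have h9 : (Y : ℝ) ≤ L * Real.sqrt η * c := by
      have h10 : W * Y ≤ L * (Real.sqrt η * δ) * Y := mul_le_mul_of_nonneg_right h8 (by positivity)
      have h11 : L * (Real.sqrt η * δ) * Y ≤ L * Real.sqrt η * (c * W) := by
        calc L * (Real.sqrt η * δ) * Y = L * Real.sqrt η * (δ * Y) := by ring
          _ ≤ _ := mul_le_mul_of_nonneg_left hcY (by positivity)
      have h12 : W * Y ≤ W * (L * Real.sqrt η * c) := by linarith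
      exact le_of_mul_le_mul_left h12 hW0
    rw [div_le_iff₀ (by positivity)]
    calc (N : ℝ) * Y ≤ N * (L * Real.sqrt η * c) := by gcongr
      _ = Real.sqrt η * N * c * L := by ring
      _ ≤ Real.sqrt η * N * c * L ^ 2 := by
          apply mul_le_mul_of_nonneg_left _ (by positivity)
          nlinarith
  have hs2 : (Y : ℝ) * (2 * Real.sqrt X * Real.log X) ≤ Real.sqrt η * N * c := by
    have hsX : Real.sqrt X ≤ 2 * R := by
      rw [Real.sqrt_le_left (by positivity), hXr]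
      calc (2 : ℝ) * N = 2 * (R * R) := by rw [hRR]
        _ ≤ (2 * R) ^ 2 := by nlinarith
    have h8 : 8 * W * L ≤ R * (Real.sqrt η * δ) := by
      rw [pow_one] at b5
      have : 8 * W / (Real.sqrt η * δ) * L = 8 * W * L / (Real.sqrt η * δ) := by ring
      rw [this, div_le_iff₀ (by positivity)] at b5
      exact b5
    have h9 : (Y : ℝ) * (8 * L) ≤ R * Real.sqrt η * c := by
      have h10 : W * (Y * (8 * L)) ≤ R * (Real.sqrt η * δ) * Y := by
        calc W * (Y * (8 * L)) = (8 * W * L) * Y := by ring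
          _ ≤ _ := mul_le_mul_of_nonneg_right h8 (by positivity)
      have h11 : R * (Real.sqrt η * δ) * Y ≤ R * Real.sqrt η * (c * W) := by
        calc R * (Real.sqrt η * δ) * Y = R * Real.sqrt η * (δ * Y) := by ring
          _ ≤ _ := mul_le_mul_of_nonneg_left hcY (by positivity)
      have h12 : W * (Y * (8 * L)) ≤ W * (R * Real.sqrt η * c) := by linarith
      exact le_of_mul_le_mul_left h12 hW0
    calc (Y : ℝ) * (2 * Real.sqrt X * Real.log X) ≤ Y * (2 * (2 * R) * (2 * L)) := by gcongr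
      _ = R * (Y * (8 * L)) := by ring
      _ ≤ R * (R * Real.sqrt η * c) := by gcongr
      _ = Real.sqrt η * (R * R) * c := by ring
      _ = _ := by rw [hRR]
  -- the chain
  have hmass := mass_le (A := A) (M := Mb) (fun a ha => (hA a ha).1)
  rw [← hS, ← hc] at hmass
  have hpt : ∀ n ∈ S, ∑ m ∈ Mb, thp (n - m ^ 2) ≤ |e1 n| + |D n| + c * (Vz w)⁻¹ := by
    intro n _
    have h8 : ∑ m ∈ Mb, thp (n - m ^ 2) = e1 n + D n + ∑ m ∈ Mb, lamz w (n - m ^ 2) := by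
      rw [he1, hD]
      simp only
      rw [← sum_add_distrib, ← sum_add_distrib]
      refine sum_congr rfl fun m _ => ?_
      unfold d2
      ring
    have h9 : ∑ m ∈ Mb, lamz w (n - m ^ 2) ≤ c * (Vz w)⁻¹ := by
      calc ∑ m ∈ Mb, lamz w (n - m ^ 2) ≤ ∑ _m ∈ Mb, (Vz w)⁻¹ := sum_le_sum fun m _ => lamz_le' _
        _ = _ := by rw [sum_const, nsmul_eq_mul, hc]
    rw [h8]
    have h10 := le_abs_self (e1 n)
    have h11 := le_abs_self (D n)
    linarith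
  have htot : c * ∑ a ∈ A, Real.log a ≤ 6 * Real.sqrt η * N * c + (S.card : ℝ) * (c * (Vz w)⁻¹) := by
    have h8 : ∑ n ∈ S, |e1 n| ≤ ∑ n ∈ Icc 1 X, |e1 n| :=
      sum_le_sum_of_subset_of_nonneg hSX fun n _ _ => abs_nonneg _
    calc c * ∑ a ∈ A, Real.log a ≤ ∑ n ∈ S, ∑ m ∈ Mb, thp (n - m ^ 2) := hmass
      _ ≤ ∑ n ∈ S, (|e1 n| + |D n| + c * (Vz w)⁻¹) := sum_le_sum hpt
      _ = ∑ n ∈ S, |e1 n| + ∑ n ∈ S, |D n| + (S.card : ℝ) * (c * (Vz w)⁻¹) := by
          rw [sum_add_distrib, sum_add_distrib, sum_const, nsmul_eq_mul]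
      _ ≤ (Real.sqrt η * N * c + Real.sqrt η * N * c) + c * (X * (2 * Real.sqrt η)) + (S.card : ℝ) * (c * (Vz w)⁻¹) := by
          have h9 := h8.trans (hE1.trans (add_le_add hs1 hs2))
          have h10 := hDsum.trans hDbd
          linarith
      _ = _ := by rw [hXr]; ring
  have hfin : ∑ a ∈ A, Real.log a - 6 * Real.sqrt η * N ≤ (S.card : ℝ) * (Vz w)⁻¹ := by
    have h8 : c * (∑ a ∈ A, Real.log a - 6 * Real.sqrt η * N) ≤ c * ((S.card : ℝ) * (Vz w)⁻¹) := by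
      have : c * (∑ a ∈ A, Real.log a - 6 * Real.sqrt η * N) = c * ∑ a ∈ A, Real.log a - 6 * Real.sqrt η * N * c := by ring
      rw [this]
      linarith
    exact le_of_mul_le_mul_left h8 hc0
  have hScard : (S.card : ℝ) ≤ ((sums A M).card : ℝ) := by
    apply Nat.cast_le.2
    apply card_le_card
    intro n hn
    rw [hS, mem_sums] at hn
    obtain ⟨a, ha, m, hm, rfl⟩ := hn
    exact mem_sums.2 ⟨a, ha, m, hMbM hm, rfl⟩
  refine le_trans ?_ hScard
  calc Vz w * (∑ a ∈ A, Real.log a - 6 * Real.sqrt η * N) ≤ Vz w * ((S.card : ℝ) * (Vz w)⁻¹) :=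
        mul_le_mul_of_nonneg_left hfin hVw.le
    _ = S.card := by field_simp

end Pool.Agent.V8H21.SQ
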