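import Pool.Agent.V8H21.SQ.Pp
import Pool.Agent.H373R2.T7.BilLam

set_option autoImplicit false

/-! Primes minus their sieve model along the squares, with arbitrary bounded weights. -/

namespace Pool.Agent.V8H21.SQ

open Finset
open Pool.Agent.H373R2.T7 (lamz Vz pz Vz_pos Vz_inv_small lamI lamzI bil_lam lamzI_nonneg lamI_nonneg mem_pz lamz_nonneg)

/-- the difference of the von Mangoldt function and of its model, along the squares up to `y²` -/
noncomputable def dif (w : ℕ → ℂ) (z y n : ℕ) : ℂ :=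
  ∑ m ∈ Icc 1 y, w m * ((lamI ((n : ℤ) - (m : ℤ) ^ 2) - lamzI z ((n : ℤ) - (m : ℤ) ^ 2) : ℝ) : ℂ)

/-- the first moment over all `n`, with arbitrary bounded weights -/
theorem l1_w (K U : ℕ) (hK : 1 ≤ K) :
    ∃ B0 : ℕ, ∀ E : ℕ, ∃ N0 : ℕ, ∀ N : ℕ, N0 ≤ N → ∀ z : ℕ, Real.log N ^ B0 ≤ z → (z : ℝ) ≤ Real.log N ^ E →
    ∀ x : ℕ, N ≤ K * x ^ 2 → x ^ 2 ≤ K * N → ∀ A : ℕ, A ≤ K * N →
    ∀ w : ℕ → ℂ, (∀ m, ‖w m‖ ≤ 1) → ∀ y : ℕ, y ≤ x →
    ∑ n ∈ Icc 1 A, ‖dif w z y n‖ ≤ N * x / Real.log N ^ U := by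
  have hd : (Polynomial.X ^ 2 : Polynomial ℤ).natDegree = 2 := by simp
  obtain ⟨B0, h0⟩ := bil_lam (Polynomial.X ^ 2) (by rw [hd]; norm_num) (by simp) K hK U
  refine ⟨B0, fun E => ?_⟩
  obtain ⟨N0, h1⟩ := h0 E
  refine ⟨N0, fun N hN z hz1 hz2 x hx1 hx2 A hA w hw y hy => ?_⟩
  rw [hd] at h1
  set S : ℕ → ℂ := fun n => dif w z y n with hS
  set G : ℕ → ℂ := fun n => (starRingEnd ℂ) (S n) / ‖S n‖ with hG
  have hG1 : ∀ n, ‖G n‖ ≤ 1 := by
    intro n
    rw [hG]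
    simp only [norm_div, RCLike.norm_conj, Complex.norm_real, norm_norm]
    exact div_self_le_one _
  set c : ℕ → ℂ := fun m => if m ≤ y then w m else 0 with hc
  have hc1 : ∀ m, ‖c m‖ ≤ 1 := by
    intro m
    rw [hc]
    simp only
    split_ifs
    · exact hw m
    · simp
  have key := h1 N hN x hx1 hx2 A hA z hz1 hz2 (-1) (Or.inr rfl) G c hG1 hc1
  have heq : ∑ a ∈ Icc 1 A, ∑ m ∈ Icc 1 x, G a * c m *
      ((lamI (a + (-1) * (Polynomial.X ^ 2 : Polynomial ℤ).eval (m : ℤ)) -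
        lamzI z (a + (-1) * (Polynomial.X ^ 2 : Polynomial ℤ).eval (m : ℤ)) : ℝ) : ℂ) =
      ((∑ n ∈ Icc 1 A, ‖S n‖ : ℝ) : ℂ) := by
    push_cast
    refine sum_congr rfl fun a _ => ?_
    have e1 : ∑ m ∈ Icc 1 x, G a * c m *
        (((lamI (a + (-1) * (Polynomial.X ^ 2 : Polynomial ℤ).eval (m : ℤ)) : ℝ) : ℂ) -
        ((lamzI z (a + (-1) * (Polynomial.X ^ 2 : Polynomial ℤ).eval (m : ℤ)) : ℝ) : ℂ)) = G a * S a := by
      rw [hS]
      simp only [dif]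
      rw [mul_sum]
      have hsub : Icc 1 y ⊆ Icc 1 x := Icc_subset_Icc le_rfl hy
      rw [← sum_subset hsub]
      · refine sum_congr rfl fun m hm => ?_
        rw [hc]
        simp only
        rw [if_pos (mem_Icc.1 hm).2, mul_assoc]
        have e3 : (a : ℤ) + (-1) * (Polynomial.X ^ 2 : Polynomial ℤ).eval (m : ℤ) = (a : ℤ) - (m : ℤ) ^ 2 := by
          simp
          ring
        rw [e3]
        push_cast
        ring
      · intro m hm hm2
        rw [hc]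
        simp only
        have : ¬ m ≤ y := by
          intro h
          apply hm2
          rw [mem_Icc] at hm ⊢
          omega
        rw [if_neg this]
        ring
    rw [e1, hG]
    simp only
    by_cases h0 : ‖S a‖ = 0
    · rw [norm_eq_zero.1 h0]; simp
    · have h0' : ((‖S a‖ : ℝ) : ℂ) ≠ 0 := by exact_mod_cast h0
      rw [div_mul_eq_mul_div, mul_comm, Complex.mul_conj', pow_two]
      field_simp
  rw [heq, Complex.norm_real, Real.norm_of_nonneg (sum_nonneg fun _ _ => norm_nonneg _)] at key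
  exact key

lemma lamI_sub (n m : ℕ) : lamI ((n : ℤ) - (m : ℤ) ^ 2) = ArithmeticFunction.vonMangoldt (n - m ^ 2) := by
  unfold lamI
  have e : ((n : ℤ) - (m : ℤ) ^ 2).toNat = n - m ^ 2 := by
    have : ((m : ℤ)) ^ 2 = ((m ^ 2 : ℕ) : ℤ) := by push_cast; rfl
    rw [this]
    omega
  split_ifs with h
  · rw [e]
  · have : n - m ^ 2 = 0 := by
      have h2 : ((m ^ 2 : ℕ) : ℤ) = (m : ℤ) ^ 2 := by push_cast; rfl
      omega
    rw [this]
    simp

lemma lamzI_sub {z : ℕ} (hz : 2 ≤ z) (n m : ℕ) : lamzI z ((n : ℤ) - (m : ℤ) ^ 2) = lamz z (n - m ^ 2) := by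
  unfold lamzI
  have e : ((n : ℤ) - (m : ℤ) ^ 2).toNat = n - m ^ 2 := by
    have : ((m : ℤ)) ^ 2 = ((m ^ 2 : ℕ) : ℤ) := by push_cast; rfl
    rw [this]
    omega
  split_ifs with h
  · rw [e]
  · have : n - m ^ 2 = 0 := by
      have h2 : ((m ^ 2 : ℕ) : ℤ) = (m : ℤ) ^ 2 := by push_cast; rfl
      omega
    rw [this]
    unfold lamz
    rw [if_neg]
    intro h3
    exact h3 2 (mem_pz.2 ⟨hz, Nat.prime_two⟩) (dvd_zero 2)

end Pool.Agent.V8H21.SQ
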