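import Pool.Agent.V8H21.SQ.Corr

set_option autoImplicit false

/-! The mean square of the difference of two sieve models along the squares of a set. -/

namespace Pool.Agent.V8H21.SQ

open Finset
open Pool.Agent.H373R2.T7 (Vz pz Vz_pos mem_pz Vz_le_one lamz lamz_nonneg ev_L' ev_log')

lemma d2_zero {w z : ℕ} (hw : 2 ≤ w) (hwz : w ≤ z) : d2 w z 0 = 0 := by
  unfold d2 lamz
  rw [if_neg, if_neg]
  · ring
  · intro h3
    exact h3 2 (mem_pz.2 ⟨hw, Nat.prime_two⟩) (dvd_zero 2)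
  · intro h3
    exact h3 2 (mem_pz.2 ⟨by omega, Nat.prime_two⟩) (dvd_zero 2)

lemma shift_sum {w z X a b : ℕ} (hw : 2 ≤ w) (hwz : w ≤ z) (hab : b ≤ a) :
    ∑ n ∈ Icc 1 X, d2 w z (n - a) * d2 w z (n - b) = ∑ k ∈ Icc 1 (X - a), d2 w z k * d2 w z (k + (a - b)) := by
  have h1 : ∑ n ∈ Icc 1 X, d2 w z (n - a) * d2 w z (n - b) = ∑ n ∈ (Icc 1 X).filter (fun n => a < n), d2 w z (n - a) * d2 w z (n - b) := by
    rw [sum_filter]
    refine sum_congr rfl fun n _ => ?_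
    split_ifs with h
    · rfl
    · rw [Nat.sub_eq_zero_of_le (by omega : n ≤ a), d2_zero hw hwz, zero_mul]
  rw [h1]
  apply sum_nbij' (fun n => n - a) (fun k => k + a)
  · intro n hn
    rw [mem_filter, mem_Icc] at hn
    rw [mem_Icc]
    omega
  · intro k hk
    rw [mem_Icc] at hk
    rw [mem_filter, mem_Icc]
    omega
  · intro n hn
    rw [mem_filter, mem_Icc] at hn
    omega
  · intro k hk
    omega
  · intro n hn
    rw [mem_filter, mem_Icc] at hn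
    have : n - a + (a - b) = n - b := by omega
    rw [this]

lemma fh_neg (w z : ℕ) (h : ℤ) : fh w z (-h) = fh w z h := by
  unfold fh
  simp only [dvd_neg]

/-- the mean square -/
theorem l2_bound (E : ℕ) : ∃ X0 : ℕ, ∀ X : ℕ, X0 ≤ X → ∀ z w : ℕ, 2 ≤ w → w ≤ z → (z : ℝ) ≤ Real.log X ^ E →
    ∀ M : Finset ℕ, (∀ m ∈ M, 2 * m ^ 2 ≤ X) →
    (∀ m ∈ M, ∀ m' ∈ M, ∀ p ∈ pz w, (p : ℤ) ∣ (m : ℤ) ^ 2 - (m' : ℤ) ^ 2) →
    ∑ n ∈ Icc 1 X, (∑ m ∈ M, d2 w z (n - m ^ 2)) ^ 2 ≤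
      X * (Vz w)⁻¹ * (∑ m ∈ M, ∑ m' ∈ M, (fh w z ((m : ℤ) ^ 2 - (m' : ℤ) ^ 2) - 1)) +
        (M.card : ℝ) ^ 2 * (2 * X / Real.log X) := by
  obtain ⟨K0, h0⟩ := corr_pair (E + 1)
  obtain ⟨K3, h3⟩ := ev_L' (2 ^ (E + 2) + 4)
  refine ⟨2 * K0 + K3 + 4, fun X hX z w hw hwz hzE M hM hMd => ?_⟩
  have b3 := h3 X (by omega)
  have hXr : (4 : ℝ) ≤ X := by exact_mod_cast (by omega : 4 ≤ X)
  have hX0 : (0 : ℝ) < X := by linarith
  have h2E : (0 : ℝ) < 2 ^ (E + 2) := by positivity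
  have hL0 : 0 < Real.log X := by linarith
  -- one pair
  have hpair : ∀ m ∈ M, ∀ m' ∈ M, m' ≤ m →
      ∑ n ∈ Icc 1 X, d2 w z (n - m ^ 2) * d2 w z (n - m' ^ 2) ≤
        X * (Vz w)⁻¹ * (fh w z ((m : ℤ) ^ 2 - (m' : ℤ) ^ 2) - 1) + 2 * X / Real.log X := by
    intro m hm m' hm' hmm
    have hsq : m' ^ 2 ≤ m ^ 2 := Nat.pow_le_pow_left hmm 2
    rw [shift_sum hw hwz hsq]
    have hmX := hM m hm
    obtain ⟨K, hK⟩ : ∃ K, K = X - m ^ 2 := ⟨_, rfl⟩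
    rw [← hK]
    have hK2 : X ≤ 2 * K := by omega
    have hKX : K ≤ X := by omega
    have hK0 : K0 ≤ K := by omega
    have hKr : (X : ℝ) ≤ 2 * K := by exact_mod_cast hK2
    have hKXr : (K : ℝ) ≤ X := by exact_mod_cast hKX
    have hKpos : (0 : ℝ) < K := by linarith
    -- logarithms
    have hlogK : Real.log X / 2 ≤ Real.log K := by
      have h4 : Real.log X ≤ Real.log 2 + Real.log K := by
        rw [← Real.log_mul (by norm_num) hKpos.ne']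
        exact Real.log_le_log hX0 hKr
      have h5 : Real.log 2 < 1 := by
        have := Real.log_two_lt_d9
        linarith
      linarith
    have hLK0 : 0 < Real.log K := by linarith
    have hzK : (z : ℝ) ≤ Real.log K ^ (E + 1) := by
      refine hzE.trans ?_
      have h4 : Real.log X ≤ 2 * Real.log K := by linarith
      calc Real.log X ^ E ≤ (2 * Real.log K) ^ E := pow_le_pow_left₀ hL0.le h4 E
        _ = 2 ^ E * Real.log K ^ E := mul_pow _ _ _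
        _ ≤ Real.log K * Real.log K ^ E := by
            apply mul_le_mul_of_nonneg_right _ (by positivity)
            have e : (2 : ℝ) ^ (E + 2) = 4 * 2 ^ E := by ring
            have : (0 : ℝ) < 2 ^ E := by positivity
            linarith
        _ = Real.log K ^ (E + 1) := by ring
    have hh : ∀ p ∈ pz w, p ∣ m ^ 2 - m' ^ 2 := by
      intro p hp
      have h4 := hMd m hm m' hm' p hp
      have e : ((m : ℤ) ^ 2 - (m' : ℤ) ^ 2) = ((m ^ 2 - m' ^ 2 : ℕ) : ℤ) := by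
        push_cast [hsq]
        ring
      rw [e] at h4
      exact Int.natCast_dvd_natCast.1 h4
    have key := h0 K hK0 z w (by omega) hwz hzK (m ^ 2 - m' ^ 2) hh
    have e : (((m ^ 2 - m' ^ 2 : ℕ) : ℤ)) = ((m : ℤ) ^ 2 - (m' : ℤ) ^ 2) := by
      push_cast [hsq]
      ring
    rw [e] at key
    refine key.trans (add_le_add ?_ ?_)
    · have h5 : 0 ≤ (Vz w)⁻¹ * (fh w z ((m : ℤ) ^ 2 - (m' : ℤ) ^ 2) - 1) :=
        mul_nonneg (inv_nonneg.2 (Vz_pos w).le) (by linarith [one_le_fh w z ((m : ℤ) ^ 2 - (m' : ℤ) ^ 2)])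
      calc (K : ℝ) * ((Vz w)⁻¹ * (fh w z ((m : ℤ) ^ 2 - (m' : ℤ) ^ 2) - 1)) ≤
            X * ((Vz w)⁻¹ * (fh w z ((m : ℤ) ^ 2 - (m' : ℤ) ^ 2) - 1)) := mul_le_mul_of_nonneg_right hKXr h5
        _ = _ := by ring
    · rw [div_le_div_iff₀ hLK0 hL0]
      calc (K : ℝ) * Real.log X ≤ X * (2 * Real.log K) := by
            apply mul_le_mul hKXr (by linarith) hL0.le hX0.le
        _ = _ := by ring
  have hpair2 : ∀ m ∈ M, ∀ m' ∈ M,
      ∑ n ∈ Icc 1 X, d2 w z (n - m ^ 2) * d2 w z (n - m' ^ 2) ≤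
        X * (Vz w)⁻¹ * (fh w z ((m : ℤ) ^ 2 - (m' : ℤ) ^ 2) - 1) + 2 * X / Real.log X := by
    intro m hm m' hm'
    rcases le_total m' m with h | h
    · exact hpair m hm m' hm' h
    · have := hpair m' hm' m hm h
      have e : (m : ℤ) ^ 2 - (m' : ℤ) ^ 2 = -((m' : ℤ) ^ 2 - (m : ℤ) ^ 2) := by ring
      rw [e, fh_neg]
      refine le_trans (le_of_eq ?_) this
      exact sum_congr rfl fun n _ => mul_comm _ _
  have hexp : ∑ n ∈ Icc 1 X, (∑ m ∈ M, d2 w z (n - m ^ 2)) ^ 2 =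
      ∑ m ∈ M, ∑ m' ∈ M, ∑ n ∈ Icc 1 X, d2 w z (n - m ^ 2) * d2 w z (n - m' ^ 2) := by
    have h4 : ∀ n ∈ Icc 1 X, (∑ m ∈ M, d2 w z (n - m ^ 2)) ^ 2 =
        ∑ m ∈ M, ∑ m' ∈ M, d2 w z (n - m ^ 2) * d2 w z (n - m' ^ 2) := by
      intro n _
      rw [pow_two, sum_mul_sum]
    rw [sum_congr rfl h4, sum_comm]
    refine sum_congr rfl fun m _ => ?_
    rw [sum_comm]
  rw [hexp]
  calc ∑ m ∈ M, ∑ m' ∈ M, ∑ n ∈ Icc 1 X, d2 w z (n - m ^ 2) * d2 w z (n - m' ^ 2) ≤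
        ∑ m ∈ M, ∑ m' ∈ M, (X * (Vz w)⁻¹ * (fh w z ((m : ℤ) ^ 2 - (m' : ℤ) ^ 2) - 1) + 2 * X / Real.log X) :=
          sum_le_sum fun m hm => sum_le_sum fun m' hm' => hpair2 m hm m' hm'
    _ = _ := by
        simp only [sum_add_distrib, sum_const, nsmul_eq_mul, mul_sum]
        ring

end Pool.Agent.V8H21.SQ
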