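import Pool.Agent.V8H21.SQ.Main1

set_option autoImplicit false

/-! From the weight `log p` to the number of the representations. -/

namespace Pool.Agent.V8H21.SQ

open Finset
open Pool.Agent.H373R2.T7 (lamz Vz pz Vz_pos Vz_inv_small mem_pz lamz_nonneg ev_log' ev_L' Vz_le_one)

/-- partial summation -/
lemma abel_aux (a : ℕ → ℂ) (g : ℕ → ℝ) (hg : Monotone g) {E : ℝ} (hE : ∀ y, ‖∑ m ∈ Icc 1 y, a m‖ ≤ E) (y : ℕ) :
    ‖∑ m ∈ Icc 1 y, a m * (g m : ℂ) - (∑ m ∈ Icc 1 y, a m) * (g y : ℂ)‖ ≤ E * (g y - g 0) := by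
  induction y with
  | zero => simp
  | succ y ih =>
    rw [sum_Icc_succ_top (by omega), sum_Icc_succ_top (by omega)]
    have h1 : ∑ m ∈ Icc 1 y, a m * (g m : ℂ) + a (y + 1) * (g (y + 1) : ℂ) -
        (∑ m ∈ Icc 1 y, a m + a (y + 1)) * (g (y + 1) : ℂ) =
        (∑ m ∈ Icc 1 y, a m * (g m : ℂ) - (∑ m ∈ Icc 1 y, a m) * (g y : ℂ)) -
        (∑ m ∈ Icc 1 y, a m) * ((g (y + 1) - g y : ℝ) : ℂ) := by
      push_cast
      ring
    rw [h1]
    have h2 : 0 ≤ g (y + 1) - g y := sub_nonneg.2 (hg (Nat.le_succ y))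
    have h3 : ‖(∑ m ∈ Icc 1 y, a m) * ((g (y + 1) - g y : ℝ) : ℂ)‖ ≤ E * (g (y + 1) - g y) := by
      rw [norm_mul, Complex.norm_real, Real.norm_of_nonneg h2]
      exact mul_le_mul_of_nonneg_right (hE y) h2
    refine (norm_sub_le _ _).trans ((add_le_add ih h3).trans (le_of_eq ?_))
    ring

lemma abel (a : ℕ → ℂ) (g : ℕ → ℝ) (hg : Monotone g) (h0 : ∀ m, 0 ≤ g m) (h1 : ∀ m, g m ≤ 1) {E : ℝ}
    (hE : ∀ y, ‖∑ m ∈ Icc 1 y, a m‖ ≤ E) (y : ℕ) :
    ‖∑ m ∈ Icc 1 y, a m * (g m : ℂ)‖ ≤ 2 * E := by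
  have hE0 : 0 ≤ E := (norm_nonneg _).trans (hE 0)
  have h2 := abel_aux a g hg hE y
  have h3 : ‖(∑ m ∈ Icc 1 y, a m) * (g y : ℂ)‖ ≤ E * g y := by
    rw [norm_mul, Complex.norm_real, Real.norm_of_nonneg (h0 y)]
    exact mul_le_mul_of_nonneg_right (hE y) (h0 y)
  have h4 : ∑ m ∈ Icc 1 y, a m * (g m : ℂ) = (∑ m ∈ Icc 1 y, a m * (g m : ℂ) - (∑ m ∈ Icc 1 y, a m) * (g y : ℂ)) +
      (∑ m ∈ Icc 1 y, a m) * (g y : ℂ) := by ring
  rw [h4]
  refine (norm_add_le _ _).trans ((add_le_add h2 h3).trans ?_)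
  have h5 := h0 0
  have h6 := h1 y
  have h7 := h0 y
  nlinarith

open Classical in
/-- the weighted number of representations minus the expected one -/
noncomputable def cerr (w : ℕ → ℂ) (z y n : ℕ) : ℂ :=
  ∑ m ∈ (Icc 1 y).filter (fun m => (n - m ^ 2).Prime), w m -
    (((Vz z)⁻¹ : ℝ) : ℂ) * ∑ m ∈ (Icc 1 y).filter (fun m => ∀ p ∈ pz z, ¬ p ∣ n - m ^ 2),
      w m * ((1 / Real.log ((n - m ^ 2 : ℕ) : ℝ) : ℝ) : ℂ)

lemma cerr_eq (w : ℕ → ℂ) (z y n : ℕ) : cerr w z y n =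
    ∑ m ∈ Icc 1 y, (w m * ((thp (n - m ^ 2) - lamz z (n - m ^ 2) : ℝ) : ℂ)) * ((1 / Real.log ((n - m ^ 2 : ℕ) : ℝ) : ℝ) : ℂ) := by
  classical
  unfold cerr
  rw [sum_filter, sum_filter, mul_sum, ← sum_sub_distrib]
  refine sum_congr rfl fun m _ => ?_
  have h1 : (if (n - m ^ 2).Prime then w m else 0) = w m * ((thp (n - m ^ 2) : ℝ) : ℂ) * ((1 / Real.log ((n - m ^ 2 : ℕ) : ℝ) : ℝ) : ℂ) := by
    unfold thp
    split_ifs with h
    · have h2 : Real.log ((n - m ^ 2 : ℕ) : ℝ) ≠ 0 := by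
        apply ne_of_gt
        apply Real.log_pos
        exact_mod_cast h.one_lt
      rw [mul_assoc, ← Complex.ofReal_mul, mul_one_div_cancel h2]
      simp
    · simp
  have h3 : (((Vz z)⁻¹ : ℝ) : ℂ) * (if ∀ p ∈ pz z, ¬ p ∣ n - m ^ 2 then w m * ((1 / Real.log ((n - m ^ 2 : ℕ) : ℝ) : ℝ) : ℂ) else 0) =
      w m * ((lamz z (n - m ^ 2) : ℝ) : ℂ) * ((1 / Real.log ((n - m ^ 2 : ℕ) : ℝ) : ℝ) : ℂ) := by
    unfold lamz
    split_ifs with h
    · ring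
    · simp
  rw [h1, h3]
  push_cast
  ring

lemma cerr_le {w : ℕ → ℂ} (hw : ∀ m, ‖w m‖ ≤ 1) {z n : ℕ} (hz : 2 ≤ z) {E : ℝ} (hE : ∀ y, ‖err w z y n‖ ≤ E) (y : ℕ) :
    ‖cerr w z y n‖ ≤ 2 * E + ((Vz z)⁻¹ + 1) := by
  classical
  rw [cerr_eq]
  set a : ℕ → ℂ := fun m => w m * ((thp (n - m ^ 2) - lamz z (n - m ^ 2) : ℝ) : ℂ) with ha
  set g : ℕ → ℝ := fun m => 1 / Real.log ((max (n - m ^ 2) 3 : ℕ) : ℝ) with hg
  have hl3 : 1 ≤ Real.log 3 := by
    rw [Real.le_log_iff_exp_le (by norm_num)]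
    exact Real.exp_one_lt_d9.le.trans (by norm_num)
  have hm3 : ∀ m, (3 : ℝ) ≤ ((max (n - m ^ 2) 3 : ℕ) : ℝ) := fun m => by exact_mod_cast le_max_right _ _
  have hlog : ∀ m, 1 ≤ Real.log ((max (n - m ^ 2) 3 : ℕ) : ℝ) := fun m =>
    hl3.trans (Real.log_le_log (by norm_num) (hm3 m))
  have hmono : Monotone g := by
    intro i j hij
    rw [hg]
    simp only
    apply one_div_le_one_div_of_le (by linarith [hlog j])
    apply Real.log_le_log (by linarith [hm3 j])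
    have h1 : i ^ 2 ≤ j ^ 2 := Nat.pow_le_pow_left hij 2
    have h2 : n - j ^ 2 ≤ n - i ^ 2 := by omega
    exact_mod_cast max_le_max h2 le_rfl
  have key := abel a g hmono (fun m => by rw [hg]; simp only; exact div_nonneg zero_le_one (by linarith [hlog m]))
    (fun m => by rw [hg]; simp only; rw [div_le_one (by linarith [hlog m])]; exact hlog m) (E := E) hE y
  -- the difference
  have hV0 := Vz_pos z
  have hdiff : ∀ m ∈ Icc 1 y, a m * ((1 / Real.log ((n - m ^ 2 : ℕ) : ℝ) : ℝ) : ℂ) = a m * (g m : ℂ) +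
      (if n - m ^ 2 = 1 ∨ n - m ^ 2 = 2 then a m * (((1 / Real.log ((n - m ^ 2 : ℕ) : ℝ) : ℝ) : ℂ) - (g m : ℂ)) else 0) := by
    intro m _
    split_ifs with h
    · ring
    · rw [add_zero]
      rcases Nat.eq_zero_or_pos (n - m ^ 2) with h0 | h0
      · have : a m = 0 := by
          rw [ha]
          simp only
          rw [h0, thp_zero, lamz_zero hz]
          simp
        rw [this, zero_mul, zero_mul]
      · have : max (n - m ^ 2) 3 = n - m ^ 2 := max_eq_left (by omega)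
        rw [hg]
        simp only
        rw [this]
  rw [sum_congr rfl hdiff, sum_add_distrib]
  refine (norm_add_le _ _).trans (add_le_add key ?_)
  rw [← sum_filter]
  have hsplit : (Icc 1 y).filter (fun m => n - m ^ 2 = 1 ∨ n - m ^ 2 = 2) =
      (Icc 1 y).filter (fun m => n - m ^ 2 = 1) ∪ (Icc 1 y).filter (fun m => n - m ^ 2 = 2) := filter_or _ _ _
  have hone : ∀ k : ℕ, 1 ≤ k → ((Icc 1 y).filter (fun m => n - m ^ 2 = k)).card ≤ 1 := by
    intro k hk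
    rw [card_le_one]
    intro i hi j hj
    rw [mem_filter] at hi hj
    have : i ^ 2 = j ^ 2 := by omega
    exact Nat.pow_left_injective (by norm_num : 2 ≠ 0) this
  have hdisj : Disjoint ((Icc 1 y).filter (fun m => n - m ^ 2 = 1)) ((Icc 1 y).filter (fun m => n - m ^ 2 = 2)) := by
    rw [disjoint_filter]
    intro m _ h1 h2
    omega
  rw [hsplit, sum_union hdisj]
  have hb1 : ‖∑ m ∈ (Icc 1 y).filter (fun m => n - m ^ 2 = 1), a m * (((1 / Real.log ((n - m ^ 2 : ℕ) : ℝ) : ℝ) : ℂ) - (g m : ℂ))‖ ≤ (Vz z)⁻¹ := by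
    have h1 : ∀ m ∈ (Icc 1 y).filter (fun m => n - m ^ 2 = 1), ‖a m * (((1 / Real.log ((n - m ^ 2 : ℕ) : ℝ) : ℝ) : ℂ) - (g m : ℂ))‖ ≤ (Vz z)⁻¹ := by
      intro m hm
      rw [mem_filter] at hm
      have e1 : thp 1 = 0 := by unfold thp; rw [if_neg Nat.not_prime_one]
      rw [norm_mul, ha]
      simp only
      rw [hm.2, e1, norm_mul, Complex.norm_real, zero_sub, norm_neg, Real.norm_of_nonneg (lamz_nonneg _ _)]
      have e2 : ‖((1 / Real.log ((1 : ℕ) : ℝ) : ℝ) : ℂ) - (g m : ℂ)‖ ≤ 1 := by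
        rw [Nat.cast_one, Real.log_one, div_zero, Complex.ofReal_zero, zero_sub, norm_neg, Complex.norm_real, Real.norm_eq_abs, abs_of_nonneg]
        · rw [hg]; simp only; rw [div_le_one (by linarith [hlog m])]; exact hlog m
        · rw [hg]; simp only; exact div_nonneg zero_le_one (by linarith [hlog m])
      calc ‖w m‖ * lamz z 1 * ‖((1 / Real.log ((1 : ℕ) : ℝ) : ℝ) : ℂ) - (g m : ℂ)‖ ≤ (1 * (Vz z)⁻¹) * 1 := by
            apply mul_le_mul (mul_le_mul (hw m) (lamz_le' 1) (lamz_nonneg _ _) zero_le_one) e2 (norm_nonneg _) (by positivity)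
        _ = _ := by ring
    calc ‖∑ m ∈ (Icc 1 y).filter (fun m => n - m ^ 2 = 1), a m * (((1 / Real.log ((n - m ^ 2 : ℕ) : ℝ) : ℝ) : ℂ) - (g m : ℂ))‖ ≤
          ∑ m ∈ (Icc 1 y).filter (fun m => n - m ^ 2 = 1), ‖a m * (((1 / Real.log ((n - m ^ 2 : ℕ) : ℝ) : ℝ) : ℂ) - (g m : ℂ))‖ := norm_sum_le _ _
      _ ≤ ∑ _m ∈ (Icc 1 y).filter (fun m => n - m ^ 2 = 1), (Vz z)⁻¹ := sum_le_sum h1
      _ = (((Icc 1 y).filter (fun m => n - m ^ 2 = 1)).card : ℝ) * (Vz z)⁻¹ := by rw [sum_const, nsmul_eq_mul]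
      _ ≤ 1 * (Vz z)⁻¹ := mul_le_mul_of_nonneg_right (by exact_mod_cast hone 1 le_rfl) (by positivity)
      _ = _ := one_mul _
  have hb2 : ‖∑ m ∈ (Icc 1 y).filter (fun m => n - m ^ 2 = 2), a m * (((1 / Real.log ((n - m ^ 2 : ℕ) : ℝ) : ℝ) : ℂ) - (g m : ℂ))‖ ≤ 1 := by
    have hl2 : 0 < Real.log 2 := Real.log_pos (by norm_num)
    have h1 : ∀ m ∈ (Icc 1 y).filter (fun m => n - m ^ 2 = 2), ‖a m * (((1 / Real.log ((n - m ^ 2 : ℕ) : ℝ) : ℝ) : ℂ) - (g m : ℂ))‖ ≤ 1 := by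
      intro m hm
      rw [mem_filter] at hm
      have e1 : thp 2 = Real.log 2 := by unfold thp; rw [if_pos Nat.prime_two]; norm_num
      have e3 : lamz z 2 = 0 := by
        unfold lamz
        rw [if_neg]
        intro h
        exact h 2 (mem_pz.2 ⟨hz, Nat.prime_two⟩) dvd_rfl
      rw [norm_mul, ha]
      simp only
      rw [hm.2, e1, e3, norm_mul, Complex.norm_real, sub_zero, Real.norm_of_nonneg hl2.le]
      have e2 : ‖((1 / Real.log ((2 : ℕ) : ℝ) : ℝ) : ℂ) - (g m : ℂ)‖ ≤ 1 / Real.log 2 := by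
        rw [← Complex.ofReal_sub, Complex.norm_real, Real.norm_eq_abs, abs_of_nonneg]
        · have : 0 ≤ g m := by rw [hg]; simp only; exact div_nonneg zero_le_one (by linarith [hlog m])
          push_cast
          linarith
        · rw [hg]
          simp only
          rw [sub_nonneg]
          apply one_div_le_one_div_of_le (by exact_mod_cast hl2)
          apply Real.log_le_log (by norm_num)
          have := hm3 m
          push_cast at this ⊢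
          linarith
      calc ‖w m‖ * Real.log 2 * ‖((1 / Real.log ((2 : ℕ) : ℝ) : ℝ) : ℂ) - (g m : ℂ)‖ ≤ (1 * Real.log 2) * (1 / Real.log 2) := by
            apply mul_le_mul (mul_le_mul (hw m) le_rfl hl2.le zero_le_one) e2 (norm_nonneg _) (by positivity)
        _ = _ := by field_simp
    calc ‖∑ m ∈ (Icc 1 y).filter (fun m => n - m ^ 2 = 2), a m * (((1 / Real.log ((n - m ^ 2 : ℕ) : ℝ) : ℝ) : ℂ) - (g m : ℂ))‖ ≤
          ∑ m ∈ (Icc 1 y).filter (fun m => n - m ^ 2 = 2), ‖a m * (((1 / Real.log ((n - m ^ 2 : ℕ) : ℝ) : ℝ) : ℂ) - (g m : ℂ))‖ := norm_sum_le _ _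
      _ ≤ ∑ _m ∈ (Icc 1 y).filter (fun m => n - m ^ 2 = 2), (1 : ℝ) := sum_le_sum h1
      _ = (((Icc 1 y).filter (fun m => n - m ^ 2 = 2)).card : ℝ) := by rw [sum_const, nsmul_eq_mul, mul_one]
      _ ≤ 1 := by exact_mod_cast hone 2 (by norm_num)
  exact (norm_add_le _ _).trans (add_le_add hb1 hb2)

open Classical in
/-- the number of the exceptional integers -/
theorem main2 (C U : ℕ) : ∃ B : ℕ, ∀ E : ℕ, ∃ N₀ : ℕ, ∀ N : ℕ, N₀ ≤ N →
    ∀ z : ℕ, Real.log N ^ B ≤ z → (z : ℝ) ≤ Real.log N ^ E →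
    2 ≤ z ∧ (Vz z)⁻¹ ≤ Real.log N ∧ 3 ≤ N ∧ ∀ w : ℕ → ℂ, (∀ m, ‖w m‖ ≤ 1) →
      (((Icc 1 N).filter (fun n => ¬ ∀ y : ℕ, ‖cerr w z y n‖ ≤ Real.sqrt N / Real.log N ^ C)).card : ℝ) ≤
        N / Real.log N ^ U := by
  obtain ⟨B, h0⟩ := main1 (C + 1) U
  refine ⟨B, fun E => ?_⟩
  obtain ⟨N1, h1⟩ := h0 E
  obtain ⟨N3, h3⟩ := ev_log' (C + 2) 10
  obtain ⟨N5, h5⟩ := ev_L' 100
  refine ⟨N1 + N3 + N5, fun N hN z hz1 hz2 => ?_⟩
  obtain ⟨a1, a2, a3, a4⟩ := h1 N (by omega) z hz1 hz2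
  have b3 := h3 N (by omega)
  have b5 := h5 N (by omega)
  refine ⟨a1, a2, a3, fun w hw => le_trans ?_ (a4 w hw)⟩
  have hsub : (Icc 1 N).filter (fun n => ¬ ∀ y : ℕ, ‖cerr w z y n‖ ≤ Real.sqrt N / Real.log N ^ C) ⊆
      (Icc 1 N).filter (fun n => ¬ ∀ y : ℕ, ‖err w z y n‖ ≤ Real.sqrt N / Real.log N ^ (C + 1)) := by
    intro n hn
    rw [mem_filter] at hn ⊢
    refine ⟨hn.1, fun h => hn.2 fun y => ?_⟩
    refine (cerr_le hw a1 h y).trans ?_
    have hL0 : 0 < Real.log N := by linarith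
    have e : Real.sqrt N / Real.log N ^ C = Real.log N * (Real.sqrt N / Real.log N ^ (C + 1)) := by
      rw [pow_succ]
      field_simp
    have e2 : (Vz z)⁻¹ + 1 ≤ Real.sqrt N / Real.log N ^ (C + 1) := by
      rw [le_div_iff₀ (by positivity)]
      calc ((Vz z)⁻¹ + 1) * Real.log N ^ (C + 1) ≤ (10 * Real.log N) * Real.log N ^ (C + 1) := by
            apply mul_le_mul_of_nonneg_right _ (by positivity)
            linarith
        _ = 10 * Real.log N ^ (C + 2) := by ring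
        _ ≤ _ := b3
    rw [e]
    have h7 : 0 ≤ Real.sqrt N / Real.log N ^ (C + 1) := by positivity
    nlinarith
  exact_mod_cast card_le_card hsub

end Pool.Agent.V8H21.SQ
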