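import Pool.Agent.H373R2.T7.SysCount

set_option autoImplicit false

/-! High moments of the local factor of the difference of two squares, in a residue class. -/

namespace Pool.Agent.V8H21.SQ

open Finset
open Pool.Agent.H373R2.T7 (Vz pz Vz_pos mem_pz count_sys Vz_le_one)

/-- the primes in `(w, z]` -/
def pw (w z : ℕ) : Finset ℕ := (pz z).filter (fun p => w < p)

lemma mem_pw {w z p : ℕ} : p ∈ pw w z ↔ p ≤ z ∧ p.Prime ∧ w < p := by
  unfold pw
  rw [mem_filter, mem_pz, and_assoc]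

/-- the local factor -/
noncomputable def fh (w z : ℕ) (h : ℤ) : ℝ := ∏ p ∈ (pw w z).filter (fun p : ℕ => (p : ℤ) ∣ h), (1 - 1 / (p : ℝ))⁻¹

lemma fac_pos {p : ℕ} (hp : p.Prime) : 0 < 1 - 1 / (p : ℝ) ∧ 1 - 1 / (p : ℝ) ≤ 1 := by
  have h2 : (2 : ℝ) ≤ p := by exact_mod_cast hp.two_le
  have h3 : 1 / (p : ℝ) ≤ 1 / 2 := one_div_le_one_div_of_le (by norm_num) h2
  have h4 : 0 < 1 / (p : ℝ) := by positivity
  constructor <;> linarith

lemma one_le_fac {p : ℕ} (hp : p.Prime) : 1 ≤ (1 - 1 / (p : ℝ))⁻¹ := by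
  obtain ⟨h1, h2⟩ := fac_pos hp
  exact (one_le_inv₀ h1).2 h2

lemma one_le_fh (w z : ℕ) (h : ℤ) : 1 ≤ fh w z h := by
  unfold fh
  apply Finset.one_le_prod
  intro p hp
  rw [mem_filter, mem_pw] at hp
  exact one_le_fac hp.1.2.1

/-- the product over `(w, z]` -/
lemma pw_prod_le {w z : ℕ} : ∏ p ∈ pw w z, (1 - 1 / (p : ℝ))⁻¹ ≤ (Vz z)⁻¹ := by
  have e : (Vz z)⁻¹ = ∏ p ∈ pz z, (1 - 1 / (p : ℝ))⁻¹ := by
    unfold Vz
    rw [prod_inv_distrib]
  rw [e, ← prod_filter_mul_prod_filter_not (pz z) (fun p => w < p)]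
  unfold pw
  apply le_mul_of_one_le_right
  · exact prod_nonneg fun p hp => inv_nonneg.2 (fac_pos (mem_pz.1 (mem_filter.1 hp).1).2).1.le
  · apply Finset.one_le_prod
    intro p hp
    exact one_le_fac (mem_pz.1 (mem_filter.1 hp).1).2

lemma tele {w : ℕ} (hw : 1 ≤ w) (z : ℕ) : ∑ p ∈ pw w z, 1 / ((p : ℝ) * (p - 1)) ≤ 1 / (w : ℝ) := by
  have hw0 : (0 : ℝ) < w := by exact_mod_cast hw
  have h1 : ∀ z : ℕ, w ≤ z → ∑ n ∈ Ioc w z, 1 / ((n : ℝ) * (n - 1)) = 1 / (w : ℝ) - 1 / z := by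
    intro z hz
    induction z, hz using Nat.le_induction with
    | base => simp
    | succ z hz ih =>
      rw [← Finset.insert_Ioc_right_eq_Ioc_add_one hz, sum_insert (by simp), ih]
      have hz0 : (0 : ℝ) < z := by exact_mod_cast (by omega : 0 < z)
      have e : ((z + 1 : ℕ) : ℝ) - 1 = z := by push_cast; ring
      rw [e]
      push_cast
      field_simp
      ring
  rcases le_total w z with h | h
  · calc ∑ p ∈ pw w z, 1 / ((p : ℝ) * (p - 1)) ≤ ∑ n ∈ Ioc w z, 1 / ((n : ℝ) * (n - 1)) := by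
          apply sum_le_sum_of_subset_of_nonneg
          · intro p hp
            rw [mem_pw] at hp
            rw [mem_Ioc]
            exact ⟨hp.2.2, hp.1⟩
          · intro n hn _
            rw [mem_Ioc] at hn
            have : (1 : ℝ) ≤ n := by exact_mod_cast (by omega : 1 ≤ n)
            have h2 : 0 ≤ (n : ℝ) - 1 := by linarith
            positivity
      _ = 1 / (w : ℝ) - 1 / z := h1 z h
      _ ≤ 1 / (w : ℝ) := by
          have : 0 ≤ 1 / (z : ℝ) := by positivity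
          linarith
  · have : pw w z = ∅ := by
      rw [eq_empty_iff_forall_notMem]
      intro p hp
      rw [mem_pw] at hp
      omega
    rw [this, sum_empty]
    positivity

/-- the increment -/
noncomputable def gk (k p : ℕ) : ℝ := ((1 - 1 / (p : ℝ))⁻¹) ^ k - 1

lemma gk_nonneg {k p : ℕ} (hp : p.Prime) : 0 ≤ gk k p := by
  unfold gk
  have := one_le_pow₀ (one_le_fac hp) (n := k)
  linarith

lemma gk_le {k p : ℕ} (hp : p.Prime) (hk : k < p) : gk k p ≤ 2 * k / ((p : ℝ) - 1) := by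
  have h2 : (2 : ℝ) ≤ p := by exact_mod_cast hp.two_le
  have hp1 : 0 < (p : ℝ) - 1 := by linarith
  have e : (1 - 1 / (p : ℝ))⁻¹ = 1 + 1 / ((p : ℝ) - 1) := by
    have : 1 - 1 / (p : ℝ) = (p - 1) / p := by field_simp
    rw [this]
    field_simp
    ring
  have hx1 : (k : ℝ) / ((p : ℝ) - 1) ≤ 1 := by
    rw [div_le_one hp1]
    have : (k : ℝ) + 1 ≤ p := by exact_mod_cast hk
    linarith
  have hx0 : 0 ≤ (k : ℝ) / ((p : ℝ) - 1) := by positivity
  have h3 : ((1 - 1 / (p : ℝ))⁻¹) ^ k ≤ Real.exp (k / ((p : ℝ) - 1)) := by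
    rw [e]
    calc (1 + 1 / ((p : ℝ) - 1)) ^ k ≤ (Real.exp (1 / ((p : ℝ) - 1))) ^ k := by
          apply pow_le_pow_left₀ (by positivity)
          have := Real.add_one_le_exp (1 / ((p : ℝ) - 1))
          linarith
      _ = Real.exp (k / ((p : ℝ) - 1)) := by
          rw [← Real.exp_nat_mul]
          congr 1
          ring
  have h4 : Real.exp (k / ((p : ℝ) - 1)) ≤ 1 + 2 * (k / ((p : ℝ) - 1)) := by
    have h5 := Real.abs_exp_sub_one_sub_id_le (x := (k : ℝ) / ((p : ℝ) - 1)) (by rw [abs_of_nonneg hx0]; exact hx1)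
    have h6 := (abs_le.1 h5).2
    nlinarith
  unfold gk
  have : 2 * (k : ℝ) / ((p : ℝ) - 1) = 2 * (k / ((p : ℝ) - 1)) := by ring
  rw [this]
  linarith

lemma fh_pow (w z k : ℕ) (h : ℤ) : fh w z h ^ k =
    ∑ T ∈ (pw w z).powerset, if (∀ p ∈ T, (p : ℤ) ∣ h) then ∏ p ∈ T, gk k p else 0 := by
  unfold fh
  rw [← prod_pow]
  have h1 : ∏ p ∈ (pw w z).filter (fun p : ℕ => (p : ℤ) ∣ h), ((1 - 1 / (p : ℝ))⁻¹) ^ k =
      ∏ p ∈ (pw w z).filter (fun p : ℕ => (p : ℤ) ∣ h), (1 + gk k p) := by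
    refine prod_congr rfl fun p _ => ?_
    unfold gk
    ring
  rw [h1, prod_one_add, ← sum_filter]
  refine sum_congr ?_ fun _ _ => rfl
  ext T
  rw [mem_powerset, mem_filter, mem_powerset]
  constructor
  · intro hT
    exact ⟨fun p hp => (mem_filter.1 (hT hp)).1, fun p hp => (mem_filter.1 (hT hp)).2⟩
  · rintro ⟨h2, h3⟩ p hp
    exact mem_filter.2 ⟨h2 hp, h3 p hp⟩

lemma roots_le {p : ℕ} (hp : p.Prime) (c : ℤ) : ((range p).filter (fun a : ℕ => (p : ℤ) ∣ (a : ℤ) ^ 2 - c ^ 2)).card ≤ 2 := by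
  have hsub : (range p).filter (fun a : ℕ => (p : ℤ) ∣ (a : ℤ) ^ 2 - c ^ 2) ⊆ {(c % p).toNat, ((-c) % p).toNat} := by
    intro a ha
    rw [mem_filter, mem_range] at ha
    have h1 : (p : ℤ) ∣ ((a : ℤ) - c) * ((a : ℤ) + c) := by
      have e : (a : ℤ) ^ 2 - c ^ 2 = ((a : ℤ) - c) * ((a : ℤ) + c) := by ring
      rw [← e]
      exact ha.2
    have hlt : (a : ℤ) < p := by exact_mod_cast ha.1
    rw [mem_insert, mem_singleton]
    rcases (Nat.prime_iff_prime_int.1 hp).dvd_or_dvd h1 with h2 | h2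
    · left
      have h3 : c % p = a := by
        rw [← Int.emod_eq_of_lt (Int.natCast_nonneg a) hlt]
        exact ((Int.emod_emod_of_dvd _ dvd_rfl).symm.trans (by
          rw [Int.emod_emod_of_dvd _ dvd_rfl]
          exact (Int.emod_emod_of_dvd _ dvd_rfl).symm.trans (by
            rw [Int.emod_emod_of_dvd _ dvd_rfl]
            exact Int.ModEq.symm ((Int.modEq_iff_dvd).2 (by
              have := h2
              have e : c - a = -((a : ℤ) - c) := by ring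
              rw [e]
              exact (dvd_neg).2 this)) )))
      rw [h3]
      simp
    · right
      have h3 : (-c) % p = a := by
        have h4 : (-c) ≡ (a : ℤ) [ZMOD p] := by
          apply (Int.modEq_iff_dvd).2
          have e : (a : ℤ) - -c = (a : ℤ) + c := by ring
          rw [e]
          exact h2
        have h5 : (a : ℤ) % p = a := Int.emod_eq_of_lt (Int.natCast_nonneg a) hlt
        rw [← h5]
        exact h4
      rw [h3]
      simp
  exact (card_le_card hsub).trans card_le_two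

/-- the moment of order `k` in a residue class -/
theorem moment_class {k w z W b Y m' : ℕ} (hk : 1 ≤ k) (hkw : k ≤ w) (hW : 1 ≤ W) (hWc : ∀ p ∈ pw w z, ¬ p ∣ W) :
    ∑ m ∈ (Icc 1 Y).filter (fun m => m ≡ b [MOD W]), fh w z ((m : ℤ) ^ 2 - (m' : ℤ) ^ 2) ^ k ≤
      (Y : ℝ) / W * Real.exp 4 + ((Vz z)⁻¹) ^ (2 * k) := by
  have hYW : 0 ≤ (Y : ℝ) / W := by positivity
  have hg0 : ∀ T ∈ (pw w z).powerset, 0 ≤ ∏ p ∈ T, gk k p := by
    intro T hT
    exact prod_nonneg fun p hp => gk_nonneg (mem_pw.1 (mem_powerset.1 hT hp)).2.1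
  have h1 : ∑ m ∈ (Icc 1 Y).filter (fun m => m ≡ b [MOD W]), fh w z ((m : ℤ) ^ 2 - (m' : ℤ) ^ 2) ^ k ≤
      ∑ T ∈ (pw w z).powerset, (∏ p ∈ T, gk k p) * ((Y : ℝ) / W * ∏ p ∈ T, (2 / (p : ℝ)) + ∏ _p ∈ T, (2 : ℝ)) := by
    simp only [fh_pow]
    rw [sum_comm]
    refine sum_le_sum fun T hT => ?_
    have hTp : ∀ p ∈ T, p.Prime := fun p hp => (mem_pw.1 (mem_powerset.1 hT hp)).2.1
    have hTW : ∀ p ∈ T, ¬ p ∣ W := fun p hp => hWc p (mem_powerset.1 hT hp)
    rw [← sum_filter, filter_filter, sum_const, nsmul_eq_mul, mul_comm]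
    apply mul_le_mul_of_nonneg_left _ (hg0 T hT)
    have h2 := count_sys (fun p a => (p : ℤ) ∣ (a : ℤ) ^ 2 - (m' : ℤ) ^ 2) Y T hTp W hW hTW b
    have h3 := (abs_le.1 h2).2
    have h4 : (((Icc 1 Y).filter (fun m => m ≡ b [MOD W] ∧ ∀ p ∈ T, (p : ℤ) ∣ (m : ℤ) ^ 2 - (m' : ℤ) ^ 2)).card : ℝ) ≤
        (((Icc 1 Y).filter (fun n => n ≡ b [MOD W] ∧ ∀ p ∈ T, (p : ℤ) ∣ ((n % p : ℕ) : ℤ) ^ 2 - (m' : ℤ) ^ 2)).card : ℝ) := by
      refine Nat.cast_le.2 (card_le_card ?_)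
      intro n hn
      rw [mem_filter] at hn ⊢
      refine ⟨hn.1, hn.2.1, fun p hp => ?_⟩
      have hnp := hn.2.2 p hp
      have h5 : ((n % p : ℕ) : ℤ) ≡ (n : ℤ) [ZMOD p] := by
        push_cast
        exact Int.mod_modEq _ _
      have h6 : (((n % p : ℕ) : ℤ)) ^ 2 - (m' : ℤ) ^ 2 ≡ (n : ℤ) ^ 2 - (m' : ℤ) ^ 2 [ZMOD p] :=
        Int.ModEq.sub (h5.pow 2) (Int.ModEq.refl _)
      exact (Int.ModEq.dvd_iff h6).2 hnp
    refine h4.trans ?_
    have h7 : ∏ p ∈ T, ((((range p).filter (fun a : ℕ => (p : ℤ) ∣ (a : ℤ) ^ 2 - (m' : ℤ) ^ 2)).card : ℝ) / p) ≤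
        ∏ p ∈ T, (2 / (p : ℝ)) := by
      apply prod_le_prod
      · intro p _; positivity
      · intro p hp
        apply div_le_div_of_nonneg_right _ (Nat.cast_nonneg _)
        have := roots_le (hTp p hp) (m' : ℤ)
        calc (((range p).filter (fun a : ℕ => (p : ℤ) ∣ (a : ℤ) ^ 2 - (m' : ℤ) ^ 2)).card : ℝ) ≤ ((2 : ℕ) : ℝ) := Nat.cast_le.2 this
          _ = 2 := by norm_num
    have h8 : ∏ p ∈ T, (((range p).filter (fun a : ℕ => (p : ℤ) ∣ (a : ℤ) ^ 2 - (m' : ℤ) ^ 2)).card : ℝ) ≤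
        ∏ _p ∈ T, (2 : ℝ) := by
      apply prod_le_prod
      · intro p _; positivity
      · intro p hp
        have := roots_le (hTp p hp) (m' : ℤ)
        calc (((range p).filter (fun a : ℕ => (p : ℤ) ∣ (a : ℤ) ^ 2 - (m' : ℤ) ^ 2)).card : ℝ) ≤ ((2 : ℕ) : ℝ) := Nat.cast_le.2 this
          _ = 2 := by norm_num
    have h9 := mul_le_mul_of_nonneg_left h7 hYW
    linarith
  have h2 : ∑ T ∈ (pw w z).powerset, (∏ p ∈ T, gk k p) * ((Y : ℝ) / W * ∏ p ∈ T, (2 / (p : ℝ)) + ∏ _p ∈ T, (2 : ℝ)) =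
      (Y : ℝ) / W * ∏ p ∈ pw w z, (1 + gk k p * (2 / (p : ℝ))) + ∏ p ∈ pw w z, (1 + gk k p * 2) := by
    rw [prod_one_add, prod_one_add, mul_sum, ← sum_add_distrib]
    refine sum_congr rfl fun T _ => ?_
    rw [prod_mul_distrib, prod_mul_distrib]
    ring
  rw [h2] at h1
  refine h1.trans (add_le_add (mul_le_mul_of_nonneg_left ?_ hYW) ?_)
  · have hexp : ∏ p ∈ pw w z, (1 + gk k p * (2 / (p : ℝ))) ≤ Real.exp (∑ p ∈ pw w z, gk k p * (2 / (p : ℝ))) := by
      rw [Real.exp_sum]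
      apply prod_le_prod
      · intro p hp
        have := gk_nonneg (k := k) (mem_pw.1 hp).2.1
        positivity
      · intro p _
        have := Real.add_one_le_exp (gk k p * (2 / (p : ℝ)))
        linarith
    refine hexp.trans ?_
    · apply Real.exp_le_exp.2
      have hw0 : (0 : ℝ) < w := by exact_mod_cast (by omega : 0 < w)
      calc ∑ p ∈ pw w z, gk k p * (2 / (p : ℝ)) ≤ ∑ p ∈ pw w z, (4 * k) * (1 / ((p : ℝ) * (p - 1))) := by
            refine sum_le_sum fun p hp => ?_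
            rw [mem_pw] at hp
            have h3 := gk_le hp.2.1 (by omega : k < p)
            have h4 : (2 : ℝ) ≤ p := by exact_mod_cast hp.2.1.two_le
            have h5 : (0 : ℝ) < (p : ℝ) - 1 := by linarith
            calc gk k p * (2 / (p : ℝ)) ≤ (2 * k / ((p : ℝ) - 1)) * (2 / (p : ℝ)) := by gcongr
              _ = _ := by field_simp; ring
        _ = (4 * k) * ∑ p ∈ pw w z, 1 / ((p : ℝ) * (p - 1)) := by rw [mul_sum]
        _ ≤ (4 * k) * (1 / (w : ℝ)) := by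
            apply mul_le_mul_of_nonneg_left (tele (by omega) z) (by positivity)
        _ ≤ 4 := by
            rw [mul_one_div, div_le_iff₀ hw0]
            have : (k : ℝ) ≤ w := by exact_mod_cast hkw
            linarith
  · calc ∏ p ∈ pw w z, (1 + gk k p * 2) ≤ ∏ p ∈ pw w z, (((1 - 1 / (p : ℝ))⁻¹) ^ (2 * k)) := by
          apply prod_le_prod
          · intro p hp
            have := gk_nonneg (k := k) (mem_pw.1 hp).2.1
            positivity
          · intro p hp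
            have h3 := gk_nonneg (k := k) (mem_pw.1 hp).2.1
            have e : ((1 - 1 / (p : ℝ))⁻¹) ^ (2 * k) = (1 + gk k p) ^ 2 := by
              unfold gk
              rw [mul_comm, pow_mul]
              ring
            rw [e]
            nlinarith
      _ = (∏ p ∈ pw w z, (1 - 1 / (p : ℝ))⁻¹) ^ (2 * k) := by rw [prod_pow]
      _ ≤ ((Vz z)⁻¹) ^ (2 * k) := by
          apply pow_le_pow_left₀ _ pw_prod_le
          exact prod_nonneg fun p hp => inv_nonneg.2 (fac_pos (mem_pw.1 hp).2.1).1.le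

end Pool.Agent.V8H21.SQ
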